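import Mathlib

/-!
# Finite sums for the pairing lemma
-/

set_option autoImplicit false

namespace Pool.Agent.W2helper25.KB

variable {n : ℕ}

theorem cyc (f : Fin n → Fin n → Fin n → ℝ) :
    ∑ a, ∑ b, ∑ c, f b c a = ∑ a, ∑ b, ∑ c, f a b c := by
  rw [Finset.sum_comm]
  exact Finset.sum_congr rfl fun b _ => Finset.sum_comm

theorem alg_bd (x : Fin n → ℝ) (P B : Fin n → Fin n → ℝ) (hP : ∀ i j, P i j = -P j i)
    (hB : ∀ i j, B i j = -B j i)
    (hb : ∀ i j, B i j = x i * (∑ a, x a * B a j) - x j * (∑ a, x a * B a i))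
    (hx : ∑ k, x k * x k = 1) :
    ∑ k, x k * (∑ i, ∑ j, (x k * P i j + x i * P j k + x j * P k i) * B i j) = 0 := by
  set b : Fin n → ℝ := fun j => ∑ a, x a * B a j with hbd
  set W : ℝ := ∑ k, ∑ j, x k * P k j * b j with hW
  have hS : ∑ k, x k * (∑ i, ∑ j, (x k * P i j + x i * P j k + x j * P k i) * B i j) =
      ∑ i, ∑ j, P i j * B i j + ∑ k, ∑ i, ∑ j, x k * P j k * (x i * B i j) +
        ∑ k, ∑ i, ∑ j, x k * P k i * (x j * B i j) := by
    have h1 : ∑ i, ∑ j, P i j * B i j = ∑ k, ∑ i, ∑ j, x k * x k * P i j * B i j := by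
      have h2 : ∀ k, ∑ i, ∑ j, x k * x k * P i j * B i j = x k * x k * ∑ i, ∑ j, P i j * B i j := by
        intro k
        rw [Finset.mul_sum]
        refine Finset.sum_congr rfl fun i _ => ?_
        rw [Finset.mul_sum]
        exact Finset.sum_congr rfl fun j _ => by ring
      simp only [h2]
      rw [← Finset.sum_mul, hx, one_mul]
    rw [h1, ← Finset.sum_add_distrib, ← Finset.sum_add_distrib]
    refine Finset.sum_congr rfl fun k _ => ?_
    rw [← Finset.sum_add_distrib, ← Finset.sum_add_distrib, Finset.mul_sum]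
    refine Finset.sum_congr rfl fun i _ => ?_
    rw [← Finset.sum_add_distrib, ← Finset.sum_add_distrib, Finset.mul_sum]
    exact Finset.sum_congr rfl fun j _ => by ring
  have h1 : ∑ i, ∑ j, P i j * B i j = 2 * W := by
    have h2 : ∑ i, ∑ j, P i j * B i j =
        ∑ i, ∑ j, x i * P i j * b j - ∑ i, ∑ j, P i j * (x j * b i) := by
      rw [← Finset.sum_sub_distrib]
      refine Finset.sum_congr rfl fun i _ => ?_
      rw [← Finset.sum_sub_distrib]
      refine Finset.sum_congr rfl fun j _ => ?_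
      rw [hb i j]; ring
    have h4 : ∑ i, ∑ j, P i j * (x j * b i) = -W := by
      rw [Finset.sum_comm, hW, ← Finset.sum_neg_distrib]
      refine Finset.sum_congr rfl fun j _ => ?_
      rw [← Finset.sum_neg_distrib]
      refine Finset.sum_congr rfl fun i _ => ?_
      rw [hP i j]; ring
    rw [h2, h4, ← hW]; ring
  have h2 : ∑ k, ∑ i, ∑ j, x k * P j k * (x i * B i j) = -W := by
    rw [hW, ← Finset.sum_neg_distrib]
    refine Finset.sum_congr rfl fun k _ => ?_
    rw [Finset.sum_comm, ← Finset.sum_neg_distrib]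
    refine Finset.sum_congr rfl fun j _ => ?_
    rw [← Finset.mul_sum, hP j k]
    ring
  have h3 : ∑ k, ∑ i, ∑ j, x k * P k i * (x j * B i j) = -W := by
    rw [hW, ← Finset.sum_neg_distrib]
    refine Finset.sum_congr rfl fun k _ => ?_
    rw [← Finset.sum_neg_distrib]
    refine Finset.sum_congr rfl fun i _ => ?_
    rw [← Finset.mul_sum]
    have h4 : ∑ j, x j * B i j = -b i := by
      rw [hbd, ← Finset.sum_neg_distrib]
      refine Finset.sum_congr rfl fun j _ => ?_
      rw [hB i j]; ring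
    rw [h4]; ring
  rw [hS, h1, h2, h3]; ring

theorem alg_T (x : Fin n → ℝ) (P : Fin n → Fin n → ℝ) (b : Fin n → Fin n → Fin n → ℝ)
    (hc : ∀ i j k, b i j k + b j k i + b k i j = 0) :
    ∑ k, ∑ i, ∑ j, (x k * P i j + x i * P j k + x j * P k i) * b i j k = 0 := by
  set T : Fin n → Fin n → Fin n → ℝ := fun k i j => x k * P i j + x i * P j k + x j * P k i with hT
  have hcy : ∀ k i j, T k i j = T i j k := fun k i j => by simp only [hT]; ring
  have h1 := cyc (fun k i j => T k i j * b i j k)
  have h2 := cyc (fun k i j => T i j k * b j k i)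
  have e1 : ∑ k, ∑ i, ∑ j, T k i j * b j k i = ∑ k, ∑ i, ∑ j, T k i j * b i j k := by
    rw [← h1]
    refine Finset.sum_congr rfl fun k _ => Finset.sum_congr rfl fun i _ =>
      Finset.sum_congr rfl fun j _ => ?_
    rw [hcy k i j]
  have e2 : ∑ k, ∑ i, ∑ j, T k i j * b k i j = ∑ k, ∑ i, ∑ j, T k i j * b i j k := by
    rw [← e1]
    have h3 := cyc (fun k i j => T k i j * b j k i)
    rw [← h3]
    refine Finset.sum_congr rfl fun k _ => Finset.sum_congr rfl fun i _ =>
      Finset.sum_congr rfl fun j _ => ?_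
    rw [hcy k i j]
  have e3 : ∑ k, ∑ i, ∑ j, T k i j * b i j k + ∑ k, ∑ i, ∑ j, T k i j * b j k i +
      ∑ k, ∑ i, ∑ j, T k i j * b k i j = 0 := by
    rw [← Finset.sum_add_distrib, ← Finset.sum_add_distrib]
    refine Finset.sum_eq_zero fun k _ => ?_
    rw [← Finset.sum_add_distrib, ← Finset.sum_add_distrib]
    refine Finset.sum_eq_zero fun i _ => ?_
    rw [← Finset.sum_add_distrib, ← Finset.sum_add_distrib]
    refine Finset.sum_eq_zero fun j _ => ?_
    rw [← mul_add, ← mul_add, hc, mul_zero]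
  rw [e1, e2] at e3
  linarith

theorem alg_div (t : ℝ) (x : Fin n → ℝ) (P B : Fin n → Fin n → ℝ)
    (p b : Fin n → Fin n → Fin n → ℝ) (hP : ∀ i j, P i j = -P j i)
    (hp : ∀ i j l, p i j l = -p j i l) (hd : ∀ j, ∑ i, p i j i = 0)
    (hc : ∀ i j k, b i j k + b j k i + b k i j = 0) :
    ∑ k, ∑ i, ∑ j, (((1 : ℝ) * P i j + x k * (t * p i j k) +
        ((if i = k then 1 else 0) * P j k + x i * (t * p j k k)) +
        ((if j = k then 1 else 0) * P k i + x j * (t * p k i k))) * B i j +
          (x k * P i j + x i * P j k + x j * P k i) * b i j k) =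
      ∑ i, ∑ j, (((n : ℝ) - 2) * P i j + t * ∑ k, x k * p i j k) * B i j := by
  have hT := alg_T x P b hc
  have hS : ∑ k, ∑ i, ∑ j, (((1 : ℝ) * P i j + x k * (t * p i j k) +
        ((if i = k then 1 else 0) * P j k + x i * (t * p j k k)) +
        ((if j = k then 1 else 0) * P k i + x j * (t * p k i k))) * B i j +
          (x k * P i j + x i * P j k + x j * P k i) * b i j k) =
      ∑ i, ∑ j, ∑ k, ((1 : ℝ) * P i j + x k * (t * p i j k) +
        ((if i = k then 1 else 0) * P j k + x i * (t * p j k k)) +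
        ((if j = k then 1 else 0) * P k i + x j * (t * p k i k))) * B i j := by
    have h1 : ∀ U : Fin n → Fin n → Fin n → ℝ, ∑ k, ∑ i, ∑ j, (U k i j * B i j +
        (x k * P i j + x i * P j k + x j * P k i) * b i j k) =
          ∑ i, ∑ j, ∑ k, U k i j * B i j := by
      intro U
      have h2 := cyc (fun i j k => U k i j * B i j)
      simp only [Finset.sum_add_distrib]
      rw [hT, add_zero]
      exact h2
    exact h1 _
  rw [hS]
  refine Finset.sum_congr rfl fun i _ => Finset.sum_congr rfl fun j _ => ?_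
  rw [← Finset.sum_mul]
  congr 1
  have hd2 : ∀ j, ∑ k, p j k k = 0 := by
    intro j
    have : ∀ k, p j k k = -p k j k := fun k => hp j k k
    simp only [this, Finset.sum_neg_distrib, hd, neg_zero]
  simp only [Finset.sum_add_distrib, ite_mul, zero_mul, one_mul, Finset.sum_ite_eq,
    Finset.mem_univ, if_true, Finset.sum_const, Finset.card_univ, Fintype.card_fin, nsmul_eq_mul]
  have h5 : ∑ k, x i * (t * p j k k) = 0 := by
    rw [← Finset.mul_sum, ← Finset.mul_sum, hd2]; ring
  have h6 : ∑ k, x j * (t * p k i k) = 0 := by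
    rw [← Finset.mul_sum, ← Finset.mul_sum, hd]; ring
  have h7 : ∑ k, x k * (t * p i j k) = t * ∑ k, x k * p i j k := by
    rw [Finset.mul_sum]
    exact Finset.sum_congr rfl fun k _ => by ring
  rw [h5, h6, h7, hP j i]
  ring

end Pool.Agent.W2helper25.KB
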