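import Pool.Agent.W2helper25.KB.Gauss
import Pool.Agent.W2helper25.KB.Alg

/-!
# The pairing of a divergence free bivector field with a closed 2-form

If `P` is a divergence free field of bivectors on the unit ball of `ℝ^n`, `n ≥ 3`, and `B` is a closed 2-form which
vanishes on the tangent vectors of the sphere, then the integral of `⟨P, B⟩` over the ball is zero.
-/

set_option autoImplicit false

namespace Pool.Agent.W2helper25.KB

open Set Metric MeasureTheory Filter Topology
open scoped ContDiff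
open Pool.Agent.Q176.BR

variable {n : ℕ}

theorem bs_apply (k i : Fin n) : (bs k : E n) i = if i = k then 1 else 0 := by
  unfold bs
  rw [PiLp.single_apply]

/-- The field `Z_t`. -/
noncomputable def ZT (P B : Fin n → Fin n → E n → ℝ) (t : ℝ) (k : Fin n) (x : E n) : ℝ :=
  t ^ (n - 3) * ∑ i, ∑ j, (x k * P i j (t • x) + x i * P j k (t • x) + x j * P k i (t • x)) * B i j x

theorem contDiff_ZT {P B : Fin n → Fin n → E n → ℝ} (hP : ∀ i j, ContDiff ℝ 1 (P i j))
    (hB : ∀ i j, ContDiff ℝ 1 (B i j)) (t : ℝ) (k : Fin n) : ContDiff ℝ 1 (ZT P B t k) := by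
  unfold ZT
  have h1 : ∀ i : Fin n, ContDiff ℝ 1 (fun x : E n => x i) := fun i => by fun_prop
  have h2 : ∀ i j, ContDiff ℝ 1 (fun x : E n => P i j (t • x)) := fun i j =>
    (hP i j).comp (contDiff_const_smul t)
  refine contDiff_const.mul (ContDiff.sum fun i _ => ContDiff.sum fun j _ => ?_)
  exact ((((h1 k).mul (h2 i j)).add ((h1 i).mul (h2 j k))).add ((h1 j).mul (h2 k i))).mul (hB i j)

theorem fderiv_ZT {P B : Fin n → Fin n → E n → ℝ} (hP : ∀ i j, ContDiff ℝ 1 (P i j))
    (hB : ∀ i j, ContDiff ℝ 1 (B i j)) (t : ℝ) (k : Fin n) (x : E n) :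
    fderiv ℝ (ZT P B t k) x (bs k) = t ^ (n - 3) * ∑ i, ∑ j, (((1 : ℝ) * P i j (t • x) +
      x k * (t * fderiv ℝ (P i j) (t • x) (bs k)) +
        ((if i = k then 1 else 0) * P j k (t • x) + x i * (t * fderiv ℝ (P j k) (t • x) (bs k))) +
        ((if j = k then 1 else 0) * P k i (t • x) + x j * (t * fderiv ℝ (P k i) (t • x) (bs k)))) *
          B i j x + (x k * P i j (t • x) + x i * P j k (t • x) + x j * P k i (t • x)) *
            fderiv ℝ (B i j) x (bs k)) := by
  have h1 : ∀ i : Fin n, HasDerivAt (fun s : ℝ => (x + s • (bs k : E n)) i)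
      (if i = k then 1 else 0) 0 := by
    intro i
    have h2 : HasDerivAt (fun s : ℝ => x i + s * (if i = k then 1 else 0)) (1 * (if i = k then 1 else 0)) 0 :=
      ((hasDerivAt_id (0 : ℝ)).mul_const _).const_add _
    rw [one_mul] at h2
    refine h2.congr_of_eventuallyEq (Eventually.of_forall fun s => ?_)
    simp only [PiLp.add_apply, PiLp.smul_apply, smul_eq_mul, bs_apply]
  have hline : ∀ (f : E n → ℝ), ContDiff ℝ 1 f → HasDerivAt (fun s : ℝ => f (x + s • (bs k : E n)))
      (fderiv ℝ f x (bs k)) 0 := by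
    intro f hf
    have h3 : HasDerivAt (fun s : ℝ => x + s • (bs k : E n)) (bs k) 0 := by
      simpa using ((hasDerivAt_id (0 : ℝ)).smul_const (bs k : E n)).const_add x
    have h4 : HasFDerivAt f (fderiv ℝ f x) (x + (0 : ℝ) • (bs k : E n)) := by
      rw [zero_smul, add_zero]
      exact (hf.differentiable (by norm_num) x).hasFDerivAt
    exact h4.comp_hasDerivAt (0 : ℝ) h3
  have hlineP : ∀ i j, HasDerivAt (fun s : ℝ => P i j (t • (x + s • (bs k : E n))))
      (t * fderiv ℝ (P i j) (t • x) (bs k)) 0 := by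
    intro i j
    have h3 : HasDerivAt (fun s : ℝ => t • (x + s • (bs k : E n))) (t • bs k) 0 := by
      have h3a : HasDerivAt (fun s : ℝ => x + s • (bs k : E n)) (bs k) 0 := by
        simpa using ((hasDerivAt_id (0 : ℝ)).smul_const (bs k : E n)).const_add x
      exact h3a.const_smul t
    have h4 : HasFDerivAt (P i j) (fderiv ℝ (P i j) (t • x)) (t • (x + (0 : ℝ) • (bs k : E n))) := by
      rw [zero_smul, add_zero]
      exact ((hP i j).differentiable (by norm_num) _).hasFDerivAt
    have h5 := h4.comp_hasDerivAt (0 : ℝ) h3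
    rw [map_smul, smul_eq_mul] at h5
    exact h5
  have hZ := hline _ (contDiff_ZT hP hB t k)
  have hZ2 : HasDerivAt (fun s : ℝ => ZT P B t k (x + s • (bs k : E n))) (t ^ (n - 3) * ∑ i, ∑ j,
      (((1 : ℝ) * P i j (t • x) +
      x k * (t * fderiv ℝ (P i j) (t • x) (bs k)) +
        ((if i = k then 1 else 0) * P j k (t • x) + x i * (t * fderiv ℝ (P j k) (t • x) (bs k))) +
        ((if j = k then 1 else 0) * P k i (t • x) + x j * (t * fderiv ℝ (P k i) (t • x) (bs k)))) *
          B i j x + (x k * P i j (t • x) + x i * P j k (t • x) + x j * P k i (t • x)) *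
            fderiv ℝ (B i j) x (bs k))) 0 := by
    unfold ZT
    refine HasDerivAt.const_mul _ (HasDerivAt.fun_sum fun i _ => HasDerivAt.fun_sum fun j _ => ?_)
    have h6 := ((((h1 k).fun_mul (hlineP i j)).fun_add ((h1 i).fun_mul (hlineP j k))).fun_add
      ((h1 j).fun_mul (hlineP k i))).fun_mul (hline _ (hB i j))
    simp only [if_true, zero_smul, add_zero] at h6
    exact h6
  exact hZ.unique hZ2

/-- The derivative of `t ^ (n - 2) ⟨P (t x), B x⟩` in `t`. -/
noncomputable def HT (P B : Fin n → Fin n → E n → ℝ) (t : ℝ) (x : E n) : ℝ :=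
  t ^ (n - 3) * ∑ i, ∑ j, (((n : ℝ) - 2) * P i j (t • x) +
    t * ∑ k, x k * fderiv ℝ (P i j) (t • x) (bs k)) * B i j x

theorem sum_fderiv {f : E n → ℝ} (y x : E n) :
    ∑ k, x k * fderiv ℝ f y (bs k) = fderiv ℝ f y x := by
  conv_rhs => rw [← sum_bs x]
  rw [map_sum]
  exact Finset.sum_congr rfl fun k _ => by rw [map_smul, smul_eq_mul]

theorem continuous_HT {P B : Fin n → Fin n → E n → ℝ} (hP : ∀ i j, ContDiff ℝ 1 (P i j))
    (hB : ∀ i j, ContDiff ℝ 1 (B i j)) : Continuous (fun p : E n × ℝ => HT P B p.2 p.1) := by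
  unfold HT
  have h0 : Continuous (fun p : E n × ℝ => p.2 • p.1) := continuous_snd.smul continuous_fst
  have h1 : ∀ i j, Continuous (fun p : E n × ℝ => P i j (p.2 • p.1)) := fun i j =>
    (hP i j).continuous.comp h0
  have h2 : ∀ i j k, Continuous (fun p : E n × ℝ => fderiv ℝ (P i j) (p.2 • p.1) (bs k)) :=
    fun i j k => (((hP i j).continuous_fderiv (by norm_num)).comp h0).clm_apply continuous_const
  have h3 : ∀ i j, Continuous (fun p : E n × ℝ => B i j p.1) := fun i j =>
    (hB i j).continuous.comp continuous_fst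
  have h4 : ∀ k : Fin n, Continuous (fun p : E n × ℝ => p.1 k) := fun k => by fun_prop
  refine (continuous_snd.pow _).mul (continuous_finsetSum _ fun i _ => continuous_finsetSum _
    fun j _ => ((continuous_const.mul (h1 i j)).add (continuous_snd.mul
      (continuous_finsetSum _ fun k _ => (h4 k).mul (h2 i j k)))).mul (h3 i j))

theorem int_HT (hn : 3 ≤ n) {P B : Fin n → Fin n → E n → ℝ} (hP : ∀ i j, ContDiff ℝ 1 (P i j))
    (hB : ∀ i j, ContDiff ℝ 1 (B i j)) (x : E n) :
    ∫ t in (0 : ℝ)..1, HT P B t x = ∑ i, ∑ j, P i j x * B i j x := by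
  have h1 : ∀ t : ℝ, HasDerivAt (fun t : ℝ => ∑ i, ∑ j, t ^ (n - 2) * P i j (t • x) * B i j x)
      (HT P B t x) t := by
    intro t
    have h2 : ∀ i j, HasDerivAt (fun t : ℝ => t ^ (n - 2) * P i j (t • x) * B i j x)
        (t ^ (n - 3) * ((((n : ℝ) - 2) * P i j (t • x) +
          t * ∑ k, x k * fderiv ℝ (P i j) (t • x) (bs k)) * B i j x)) t := by
      intro i j
      have h3 : HasDerivAt (fun t : ℝ => t • x) x t := by
        simpa using (hasDerivAt_id t).smul_const x
      have h4 := (((hP i j).differentiable (by norm_num) (t • x)).hasFDerivAt).comp_hasDerivAt t h3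
      have h5 := ((hasDerivAt_pow (n - 2) t).mul h4).mul_const (B i j x)
      refine h5.congr_deriv ?_
      rw [sum_fderiv]
      have h6 : n - 2 = (n - 3) + 1 := by omega
      have h7 : ((n - 2 : ℕ) : ℝ) = (n : ℝ) - 2 := by
        rw [Nat.cast_sub (by omega)]; norm_num
      have h8 : n - 2 - 1 = n - 3 := by omega
      rw [h7, h8]
      have h9 : t ^ (n - 2) = t ^ (n - 3) * t := by rw [h6, pow_succ]
      rw [h9]
      simp only [Function.comp_apply]
      ring
    have h3 := HasDerivAt.fun_sum (u := Finset.univ) fun i _ =>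
      HasDerivAt.fun_sum (u := Finset.univ) fun j _ => h2 i j
    refine h3.congr_deriv ?_
    unfold HT
    rw [Finset.mul_sum]
    exact Finset.sum_congr rfl fun i _ => by rw [Finset.mul_sum]
  have hc : Continuous (fun t : ℝ => HT P B t x) :=
    (continuous_HT hP hB).comp (continuous_const.prodMk continuous_id)
  rw [intervalIntegral.integral_eq_sub_of_hasDerivAt (fun t _ => h1 t) (hc.intervalIntegrable _ _)]
  have h6 : n - 2 ≠ 0 := by omega
  simp [h6]

/-- **The pairing lemma.** -/
theorem pairing (hn : 3 ≤ n) (P B : Fin n → Fin n → E n → ℝ) (hP : ∀ i j, ContDiff ℝ 1 (P i j))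
    (hB : ∀ i j, ContDiff ℝ 1 (B i j))
    (hPa : ∀ x ∈ closedBall (0 : E n) 1, ∀ i j, P i j x = -P j i x)
    (hBa : ∀ x ∈ closedBall (0 : E n) 1, ∀ i j, B i j x = -B j i x)
    (hPd : ∀ x ∈ ball (0 : E n) 1, ∀ j, ∑ i, fderiv ℝ (P i j) x (bs i) = 0)
    (hBc : ∀ x ∈ ball (0 : E n) 1, ∀ i j k, fderiv ℝ (B i j) x (bs k) +
      fderiv ℝ (B j k) x (bs i) + fderiv ℝ (B k i) x (bs j) = 0)
    (hBb : ∀ x : E n, ‖x‖ = 1 → ∀ i j, B i j x =
      x i * (∑ a, x a * B a j x) - x j * (∑ a, x a * B a i x)) :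
    ∫ x in ball (0 : E n) 1, ∑ i, ∑ j, P i j x * B i j x = 0 := by
  have h1 : ∀ t ∈ Icc (0 : ℝ) 1, ∫ x in ball (0 : E n) 1, HT P B t x = 0 := by
    intro t ht
    have hmemc : ∀ x ∈ closedBall (0 : E n) 1, t • x ∈ closedBall (0 : E n) 1 := by
      intro x hx
      rw [mem_closedBall_zero_iff] at hx ⊢
      rw [norm_smul, Real.norm_eq_abs, abs_of_nonneg ht.1]
      exact mul_le_one₀ ht.2 (norm_nonneg _) hx
    have hmem : ∀ x ∈ ball (0 : E n) 1, t • x ∈ ball (0 : E n) 1 := by
      intro x hx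
      rw [mem_ball_zero_iff] at hx ⊢
      rw [norm_smul, Real.norm_eq_abs, abs_of_nonneg ht.1]
      exact (mul_le_of_le_one_left (norm_nonneg _) ht.2).trans_lt hx
    have h2 := ball_div (ZT P B t) (contDiff_ZT hP hB t) (by
      intro x hx
      have hxM : x ∈ closedBall (0 : E n) 1 := by rw [mem_closedBall_zero_iff, hx]
      have h3 := alg_bd (fun i => x i) (fun i j => P i j (t • x)) (fun i j => B i j x)
        (fun i j => hPa _ (hmemc x hxM) i j) (fun i j => hBa _ hxM i j) (fun i j => hBb x hx i j)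
        (by
          have h4 := EuclideanSpace.real_norm_sq_eq x
          rw [hx] at h4
          simp only [← pow_two]
          rw [← h4]; norm_num)
      unfold ZT
      have h4 : ∀ k, x k * (t ^ (n - 3) * ∑ i, ∑ j, (x k * P i j (t • x) + x i * P j k (t • x) +
          x j * P k i (t • x)) * B i j x) = t ^ (n - 3) * (x k * ∑ i, ∑ j, (x k * P i j (t • x) +
            x i * P j k (t • x) + x j * P k i (t • x)) * B i j x) := fun k => by ring
      simp only [h4, ← Finset.mul_sum]
      rw [h3, mul_zero])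
    rw [← h2]
    refine setIntegral_congr_fun measurableSet_ball fun x hx => ?_
    simp only [fderiv_ZT hP hB]
    rw [← Finset.mul_sum]
    have hpa : ∀ i j l, fderiv ℝ (P i j) (t • x) (bs l) = -fderiv ℝ (P j i) (t • x) (bs l) := by
      intro i j l
      have h3 : P i j =ᶠ[𝓝 (t • x)] fun y => -P j i y := by
        filter_upwards [isOpen_ball.mem_nhds (hmem x hx)] with y hy
        exact hPa y (ball_subset_closedBall hy) i j
      rw [h3.fderiv_eq, fderiv_fun_neg]
      rfl
    have h3 := alg_div t (fun i => x i) (fun i j => P i j (t • x)) (fun i j => B i j x)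
      (fun i j l => fderiv ℝ (P i j) (t • x) (bs l)) (fun i j l => fderiv ℝ (B i j) x (bs l))
      (fun i j => hPa _ (ball_subset_closedBall (hmem x hx)) i j) hpa (hPd _ (hmem x hx))
      (hBc x hx)
    unfold HT
    rw [← h3]
  have hI : Integrable (Function.uncurry fun (x : E n) (t : ℝ) => HT P B t x)
      ((volume.restrict (ball (0 : E n) 1)).prod (volume.restrict (Ioc (0 : ℝ) 1))) := by
    rw [Measure.prod_restrict]
    have h3 : IntegrableOn (Function.uncurry fun (x : E n) (t : ℝ) => HT P B t x)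
        (closedBall (0 : E n) 1 ×ˢ Icc (0 : ℝ) 1) (volume.prod volume) :=
      (continuous_HT hP hB).continuousOn.integrableOn_compact
        ((isCompact_closedBall _ _).prod isCompact_Icc)
    exact h3.mono_set (prod_mono ball_subset_closedBall Ioc_subset_Icc_self)
  have h4 : ∫ x in ball (0 : E n) 1, ∫ t in Ioc (0 : ℝ) 1, HT P B t x =
      ∫ t in Ioc (0 : ℝ) 1, ∫ x in ball (0 : E n) 1, HT P B t x := integral_integral_swap hI
  have h5 : ∫ x in ball (0 : E n) 1, ∑ i, ∑ j, P i j x * B i j x =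
      ∫ x in ball (0 : E n) 1, ∫ t in Ioc (0 : ℝ) 1, HT P B t x := by
    refine setIntegral_congr_fun measurableSet_ball fun x _ => ?_
    rw [← int_HT hn hP hB x, intervalIntegral.integral_of_le zero_le_one]
  rw [h5, h4]
  rw [setIntegral_congr_fun (g := fun _ => (0 : ℝ)) measurableSet_Ioc
    (fun t ht => h1 t (Ioc_subset_Icc_self ht))]
  simp

end Pool.Agent.W2helper25.KB
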