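import Pool.Agent.Q176.BR.Bd2

/-!
# The boundary distance function determines the metric on the tangent vectors of the sphere
-/

set_option autoImplicit false

namespace Pool.Agent.W2helper25.KB

open Set Metric Filter Topology
open scoped ContDiff InnerProductSpace
open Pool.Agent.Q176.BR

variable {n : ℕ} {g g' : Fld n}

theorem dlg_self (hg : IsSimple g) {p : E n} (hp : p ∈ M n) (v : E n) : dlg g p p v = v := by
  have hS := hg.isOpen_lg hp
  have key : ∀ z ∈ lg g p '' ball 0 1, dlg g p p z = z := by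
    rintro _ ⟨y, hy, rfl⟩
    obtain ⟨γ, u, h, h0, h1, h2, -⟩ := hg.exists_geod hp (ball_subset_closedBall hy)
    have h3 := h.dlg_vel hg (t := 0) ⟨le_rfl, zero_le_one⟩
    rw [h0, h2] at h3
    exact h3
  have h0 : lg g p 0 ∈ lg g p '' ball 0 1 := mem_image_of_mem _ (mem_ball_self one_pos)
  obtain ⟨δ, hδ, h1⟩ := exists_seg (hS.mem_nhds h0) v
  have h2 := key _ (h1 δ (abs_of_pos hδ).le)
  rw [map_add, map_smul, key _ h0] at h2
  have h3 := add_left_cancel h2
  exact (smul_right_injective _ hδ.ne') h3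

theorem pol_form (hg : IsSimple g) {p y : E n} (hp : p ∈ M n) (hy : y ≠ 0) :
    g p (pol g p y) (pol g p y) = ‖y‖ ^ 2 * rdist g p (rad y) ^ 2 := by
  have hr : rad y ∈ M n := bd_sub (rad_mem hy)
  rw [hg.rdist_eq hp hr, Real.sq_sqrt]
  · unfold pol
    simp only [map_smul, smul_apply, smul_eq_mul]
    ring
  · rcases eq_or_ne (lg g p (rad y)) 0 with h | h
    · rw [h]; simp
    · exact (hg.toIsMetric.pos p _ h).le

theorem bd_vals (hg : IsSimple g) (hg' : IsSimple g') {p : E n} (hp : p ∈ bdM n)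
    (hd : ∀ q ∈ bdM n, rdist g p q = rdist g' p q) {v : E n} (hv : ⟪p, v⟫_ℝ = 0) :
    g' p v v = g p v v := by
  have hp1 : ‖p‖ = 1 := mem_sphere_zero_iff_norm.1 hp
  have hpM : p ∈ M n := bd_sub hp
  have lim : ∀ h : Fld n, IsSimple h →
      Tendsto (fun s : ℝ => h p (s⁻¹ • pol h p (p + s • v)) (s⁻¹ • pol h p (p + s • v))) (𝓝[≠] 0)
        (𝓝 (h p v v)) := by
    intro h hh
    have h1 := pol_curve hh hpM hp1 v
    rw [hv, zero_smul, zero_add, zero_smul, sub_zero, dlg_self hh hpM] at h1
    have h2 : pol h p (p + (0 : ℝ) • v) = 0 := by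
      unfold pol
      rw [zero_smul, add_zero, rad_eq hp1, hh.lg_self hpM, smul_zero]
    have h3 := hasDerivAt_iff_tendsto_slope_zero.1 h1
    simp only [zero_add, h2, sub_zero] at h3
    have h4 : Continuous fun z : E n => h p z z :=
      ((h p).continuous).clm_apply continuous_id
    exact (h4.tendsto v).comp h3
  have h1 := lim g hg
  have h2 := lim g' hg'
  refine tendsto_nhds_unique (h2.congr' ?_) h1
  have hne : ∀ᶠ s : ℝ in 𝓝 0, p + s • v ≠ 0 := by
    have h3 : ContinuousAt (fun s : ℝ => p + s • v) 0 := by fun_prop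
    refine h3.eventually_ne ?_
    simpa using bd_ne hp1
  filter_upwards [nhdsWithin_le_nhds hne] with s hs
  simp only [map_smul, smul_apply, smul_eq_mul]
  rw [pol_form hg hpM hs, pol_form hg' hpM hs, hd _ (rad_mem hs)]

end Pool.Agent.W2helper25.KB
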