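import Pool.Agent.W2helper25.KB.Kae
import Pool.Agent.W2helper25.KB.Bd
import Pool.Agent.W2helper20.BC.Main

/-!
# Boundary rigidity in the class of almost Kähler metrics: conclusion
-/

set_option autoImplicit false

namespace Pool.Agent.W2helper25.KB

open Set Metric MeasureTheory Filter Topology
open scoped ContDiff InnerProductSpace ENNReal
open Pool.Agent.Q176.BR Pool.Agent.W2helper20.BC Pool.Agent.W2helper53.BC

variable {n : ℕ} {g g' : Fld n} {J : E n → E n →L[ℝ] E n}

theorem continuous_tr (hg : IsMetric g) (hg' : IsMetric g') :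
    Continuous fun x => ((gram (g x))⁻¹ * gram (g' x)).trace := by
  simp only [Matrix.trace, Matrix.diag_apply]
  exact continuous_finsetSum _ fun i _ => ((smM_inv hg).mul (smM_gram hg') i i).continuous

/-- The averaged inequality and the sign of the integral of the trace imply equality. -/
theorem eq_of_energy (hn : 1 ≤ n) (hg : IsMetric g) (hg' : IsMetric g')
    (H : ∫⁻ x in ball (0 : E n) 1, ∫⁻ v in {v | g x v v ≤ 1}, ENNReal.ofReal (g x v v) *
        ENNReal.ofReal (rho g x) ≤
      ∫⁻ x in ball (0 : E n) 1, ∫⁻ v in {v | g x v v ≤ 1},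
        ENNReal.ofReal (√(g x v v) * √(g' x v v)) * ENNReal.ofReal (rho g x))
    (hE : ∫ x in ball (0 : E n) 1,
      √(gram (g x)).det * (((gram (g x))⁻¹ * gram (g' x)).trace - n) ≤ 0) :
    ∀ x ∈ M n, g' x = g x := by
  obtain ⟨C, hC, hT⟩ := p_TRACE n hn
  have hn0 : (0 : ℝ) < n := by exact_mod_cast hn
  have hC0 : (0 : ℝ) < C * n := mul_pos hC hn0
  choose Q1 J hJ0 hJ1 hJ2 hJ3 using fun x =>
    pointwise hn hC hT (hg.symm x) (hg.pos x) (hg'.symm x) (hg'.pos x)
  have hd : ∀ x, 0 < (gram (g x)).det := hg.det_pos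
  have hr : ∀ x, 0 < √(gram (g x)).det := fun x => Real.sqrt_pos.2 (hd x)
  have hrr : ∀ x, (gram (g x)).det = √(gram (g x)).det * √(gram (g x)).det := fun x =>
    (Real.mul_self_sqrt (hd x).le).symm
  have K1 : ∀ x, (∫⁻ v in {v | g x v v ≤ 1}, ENNReal.ofReal (g x v v) *
      ENNReal.ofReal (rho g x)) = ENNReal.ofReal (C * n * √(gram (g x)).det) := by
    intro x
    rw [lintegral_mul_const' _ _ ENNReal.ofReal_ne_top, Q1 x, rho,
      ← ENNReal.ofReal_mul (by positivity)]
    congr 1
    have := (hr x).ne'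
    rw [div_mul_eq_mul_div, div_eq_iff this]
    nth_rw 1 [hrr x]
    ring
  have K2 : ∀ x, (∫⁻ v in {v | g x v v ≤ 1}, ENNReal.ofReal (√(g x v v) * √(g' x v v)) *
      ENNReal.ofReal (rho g x)) = ENNReal.ofReal (J x * (gram (g x)).det) := by
    intro x
    rw [lintegral_mul_const' _ _ ENNReal.ofReal_ne_top, hJ1 x, rho,
      ← ENNReal.ofReal_mul (hJ0 x)]
  simp only [K1, K2] at H
  have B1 : ∀ x, J x * (gram (g x)).det ≤ C * n * (√(gram (g x)).det * th (g x) (g' x)) := by
    intro x
    have h1 := mul_le_mul_of_nonneg_right (hJ2 x) (hd x).le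
    refine h1.trans (le_of_eq ?_)
    rw [div_mul_eq_mul_div, div_eq_iff (hr x).ne']
    nth_rw 1 [hrr x]
    ring
  have hth : ∀ x, 0 < th (g x) (g' x) := fun x => th_pos hn (hg.symm x) (hg.pos x) (hg'.pos x)
  have htr : ∀ x, ((gram (g x))⁻¹ * gram (g' x)).trace = n * th (g x) (g' x) ^ 2 := fun x =>
    th_sq hn (hg.symm x) (hg.pos x) (hg'.pos x)
  -- continuity
  have hc1 : Continuous fun x => C * n * √(gram (g x)).det :=
    continuous_const.mul (continuous_det hg).sqrt
  have hc2 : Continuous fun x => √(gram (g x)).det *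
      (((gram (g x))⁻¹ * gram (g' x)).trace - n) :=
    (continuous_det hg).sqrt.mul ((continuous_tr hg hg').sub continuous_const)
  set f : E n → ℝ≥0∞ := fun x => ENNReal.ofReal (J x * (gram (g x)).det) with hf
  set φ : E n → ℝ := fun x => C * n * √(gram (g x)).det + C / 2 * (√(gram (g x)).det *
      (((gram (g x))⁻¹ * gram (g' x)).trace - n)) with hφ
  have hφc : Continuous φ := hc1.add (continuous_const.mul hc2)
  have hφeq : ∀ x, φ x = C * n * (√(gram (g x)).det * ((1 + th (g x) (g' x) ^ 2) / 2)) := by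
    intro x
    simp only [hφ, htr]
    ring
  have hφ0 : ∀ x, 0 < φ x := fun x => by
    rw [hφeq]
    have := hr x
    positivity
  have hint : ∀ ψ : E n → ℝ, Continuous ψ → IntegrableOn ψ (ball (0 : E n) 1) := fun ψ hψ =>
    (hψ.continuousOn.integrableOn_compact (isCompact_closedBall (0 : E n) 1)).mono_set
      ball_subset_closedBall
  have hle : ∀ x, f x ≤ ENNReal.ofReal (φ x) := by
    intro x
    refine ENNReal.ofReal_le_ofReal ((B1 x).trans ?_)
    rw [hφeq]
    refine mul_le_mul_of_nonneg_left (mul_le_mul_of_nonneg_left ?_ (hr x).le) hC0.le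
    nlinarith [sq_nonneg (th (g x) (g' x) - 1)]
  have hI : ∫⁻ x in ball (0 : E n) 1, ENNReal.ofReal (φ x) ≤ ∫⁻ x in ball (0 : E n) 1, f x := by
    refine le_trans ?_ H
    rw [← ofReal_integral_eq_lintegral_ofReal (hint φ hφc) (Eventually.of_forall fun x => (hφ0 x).le),
      ← ofReal_integral_eq_lintegral_ofReal (hint _ hc1) (Eventually.of_forall fun x => by
        have := hr x
        positivity)]
    refine ENNReal.ofReal_le_ofReal ?_
    simp only [hφ]
    rw [integral_add (hint _ hc1) ((hint _ hc2).const_mul _), integral_const_mul (C / 2)]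
    have : C / 2 * ∫ x in ball (0 : E n) 1, √(gram (g x)).det *
      (((gram (g x))⁻¹ * gram (g' x)).trace - n) ≤ 0 :=
      mul_nonpos_of_nonneg_of_nonpos (by positivity) hE
    linarith
  have hfin : ∫⁻ x in ball (0 : E n) 1, f x ≠ ⊤ :=
    ((lintegral_mono hle).trans_lt (hint φ hφc).lintegral_lt_top).ne
  have hae := ae_eq_of_ae_le_of_lintegral_le (μ := volume.restrict (ball (0 : E n) 1))
    (Eventually.of_forall hle) hfin hφc.measurable.ennreal_ofReal.aemeasurable hI
  -- the forms agree
  have hag : g' =ᵐ[volume.restrict (ball (0 : E n) 1)] g := by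
    filter_upwards [hae] with x hx
    simp only [hf] at hx
    rw [ENNReal.ofReal_eq_ofReal_iff (mul_nonneg (hJ0 x) (hd x).le) (hφ0 x).le, hφeq] at hx
    have h1 := B1 x
    have hθ := hth x
    obtain ⟨θ, hθdef⟩ : ∃ θ, θ = th (g x) (g' x) := ⟨_, rfl⟩
    have h7 : J x = C * n * th (g x) (g' x) / √(gram (g x)).det := by
      have h2 : C * n * (√(gram (g x)).det * ((1 + th (g x) (g' x) ^ 2) / 2)) ≤
          C * n * (√(gram (g x)).det * th (g x) (g' x)) := hx ▸ h1
      have h3 := le_of_mul_le_mul_left (le_of_mul_le_mul_left h2 hC0) (hr x)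
      have h4 : th (g x) (g' x) = 1 := by nlinarith [sq_nonneg (th (g x) (g' x) - 1)]
      rw [h4] at hx ⊢
      rw [eq_div_iff (hr x).ne']
      have h8 : √(gram (g x)).det * (J x * √(gram (g x)).det) =
          √(gram (g x)).det * (C * n * 1) := by
        calc √(gram (g x)).det * (J x * √(gram (g x)).det)
            = J x * (√(gram (g x)).det * √(gram (g x)).det) := by ring
          _ = J x * (gram (g x)).det := by rw [← hrr x]
          _ = C * n * (√(gram (g x)).det * ((1 + 1 ^ 2) / 2)) := hx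
          _ = _ := by ring
      exact mul_left_cancel₀ (hr x).ne' h8
    have h4 : th (g x) (g' x) = 1 := by
      have h2 : C * n * (√(gram (g x)).det * ((1 + th (g x) (g' x) ^ 2) / 2)) ≤
          C * n * (√(gram (g x)).det * th (g x) (g' x)) := hx ▸ h1
      have h3 := le_of_mul_le_mul_left (le_of_mul_le_mul_left h2 hC0) (hr x)
      nlinarith [sq_nonneg (th (g x) (g' x) - 1)]
    have h8 := hJ3 x h7
    ext v w
    rw [h8 v w, h4]
    ring
  have hop := Measure.eqOn_open_of_ae_eq hag isOpen_ball hg'.smooth.continuous.continuousOn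
    hg.smooth.continuous.continuousOn
  have hcl := hop.closure hg'.smooth.continuous hg.smooth.continuous
  rw [closure_ball _ one_ne_zero] at hcl
  exact hcl

/-- **Main theorem** for almost Kähler metrics. -/
theorem main_ak (hn : 3 ≤ n) (hg : IsSimple g) (hg' : IsSimple g') (hJ : ContDiff ℝ ∞ J)
    (hk : AK g J) (hk' : AK g' J)
    (hd : ∀ p ∈ bdM n, ∀ q ∈ bdM n, rdist g p q = rdist g' p q) : ∀ x ∈ M n, g' x = g x := by
  refine eq_of_energy (by omega) hg.toIsMetric hg'.toIsMetric
    (pAVG n g g' (by omega) hg hg'.toIsMetric (fun p hp q hq => (hd p hp q hq).le)) ?_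
  rw [ak_int hn hg.toIsMetric hg'.toIsMetric hJ hk hk' (fun x hx v hv =>
    bd_vals hg hg' hx (hd x hx) hv)]

end Pool.Agent.W2helper25.KB
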