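import Pool.Agent.W2helper25.KB.Kae2
import Pool.Agent.W2helper25.KB.Fin
import Pool.Agent.W2helper20.BC.Avg4
import Pool.Agent.W4helper65.EN.Pull
import Pool.Agent.W2helper71.EN.DIFF

/-!
# The averaged inequality and the trace, for a second form which may be degenerate
-/

set_option autoImplicit false

namespace Pool.Agent.W2helper25.KB

open Set Metric MeasureTheory Filter Topology
open scoped ContDiff InnerProductSpace ENNReal
open Pool.Agent.Q176.BR Pool.Agent.W2helper20.BC Pool.Agent.W2helper53.BC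

variable {n : ℕ} {g h : Fld n}

theorem pointwise2 (hn : 1 ≤ n) {C : ℝ} (hC : 0 < C)
    (hT : ∀ a b : E n →L[ℝ] E n →L[ℝ] ℝ,
      (∀ v w, a v w = a w v) → (∀ v, v ≠ 0 → 0 < a v v) → (∀ v w, b v w = b w v) →
      volume {v : E n | a v v ≤ 1} < ⊤ ∧ IntegrableOn (fun v => b v v) {v : E n | a v v ≤ 1} ∧
      ∫ v in {v : E n | a v v ≤ 1}, b v v = C / √(gram a).det * ((gram a)⁻¹ * gram b).trace)
    {a b : E n →L[ℝ] E n →L[ℝ] ℝ}
    (ha : ∀ v w, a v w = a w v) (ha' : ∀ v, v ≠ 0 → 0 < a v v)
    (hb : ∀ v w, b v w = b w v) (hb0 : ∀ v, 0 ≤ b v v) :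
    (∫⁻ v in {v : E n | a v v ≤ 1}, ENNReal.ofReal (a v v)) =
      ENNReal.ofReal (C * n / √(gram a).det) ∧
    ∃ J : ℝ, 0 ≤ J ∧
      (∫⁻ v in {v : E n | a v v ≤ 1}, ENNReal.ofReal (√(a v v) * √(b v v))) =
        ENNReal.ofReal J ∧
      J ≤ C / √(gram a).det * ((n + ((gram a)⁻¹ * gram b).trace) / 2) ∧
      (J = C / √(gram a).det * ((n + ((gram a)⁻¹ * gram b).trace) / 2) → ∀ v w, b v w = a v w) := by
  have ha0 : ∀ v, 0 ≤ a v v := fun v => by
    by_cases h : v = 0
    · simp [h]
    · exact (ha' v h).le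
  have hdet : 0 < √(gram a).det := Real.sqrt_pos.2 (gram_posDef ha ha').det_pos
  have hac : Continuous fun v : E n => a v v := by fun_prop
  have hbc : Continuous fun v : E n => b v v := by fun_prop
  have hsa : Continuous fun v : E n => √(a v v) := hac.sqrt
  have hsb : Continuous fun v : E n => √(b v v) := hbc.sqrt
  obtain ⟨-, hia, hIa⟩ := hT a a ha ha' ha
  obtain ⟨-, hib, hIb⟩ := hT a b ha ha' hb
  have hmeas : MeasurableSet {v : E n | a v v ≤ 1} :=
    (isClosed_le hac continuous_const).measurableSet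
  rw [Matrix.nonsing_inv_mul _ (IsUnit.mk0 _ (gram_posDef ha ha').det_pos.ne'),
    Matrix.trace_one, Fintype.card_fin] at hIa
  -- integrability
  have hiab : IntegrableOn (fun v : E n => √(a v v) * √(b v v)) {v : E n | a v v ≤ 1} := by
    refine Integrable.mono' (hia.add hib) (hsa.mul hsb).aestronglyMeasurable
      (Filter.Eventually.of_forall fun v => ?_)
    rw [Real.norm_of_nonneg (by positivity)]
    simp only [Pi.add_apply]
    have h1 := Real.sq_sqrt (ha0 v)
    have h2 := Real.sq_sqrt (hb0 v)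
    nlinarith [sq_nonneg (√(a v v) - √(b v v)), sq_nonneg (√(a v v)), sq_nonneg (√(b v v))]
  -- the deficit
  have hid : ∀ v : E n, (√(b v v) - √(a v v)) ^ 2 =
      b v v + a v v - 2 * (√(a v v) * √(b v v)) := fun v => by
    have h1 := Real.sq_sqrt (ha0 v)
    have h2 := Real.sq_sqrt (hb0 v)
    calc (√(b v v) - √(a v v)) ^ 2 = √(b v v) ^ 2 + √(a v v) ^ 2 -
          2 * (√(a v v) * √(b v v)) := by ring
      _ = _ := by rw [h1, h2]
  have hiD : IntegrableOn (fun v : E n => (√(b v v) - √(a v v)) ^ 2)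
      {v : E n | a v v ≤ 1} := by
    simp only [hid]
    exact (hib.add hia).sub (hiab.const_mul _)
  have hE : ∫ v in {v : E n | a v v ≤ 1}, (√(b v v) - √(a v v)) ^ 2 =
      2 * (C / √(gram a).det * ((n + ((gram a)⁻¹ * gram b).trace) / 2) -
        ∫ v in {v : E n | a v v ≤ 1}, √(a v v) * √(b v v)) := by
    simp only [hid]
    have e1 : ∫ v in {v : E n | a v v ≤ 1},
        (b v v + a v v - 2 * (√(a v v) * √(b v v))) =
        (∫ v in {v : E n | a v v ≤ 1}, (b v v + a v v)) -
        ∫ v in {v : E n | a v v ≤ 1}, 2 * (√(a v v) * √(b v v)) :=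
      integral_sub (hib.add hia) (hiab.const_mul _)
    have e2 : ∫ v in {v : E n | a v v ≤ 1}, (b v v + a v v) =
        (∫ v in {v : E n | a v v ≤ 1}, b v v) + ∫ v in {v : E n | a v v ≤ 1}, a v v :=
      integral_add hib hia
    rw [e1, e2, integral_const_mul, hIa, hIb]
    ring
  have hE0 : 0 ≤ ∫ v in {v : E n | a v v ≤ 1}, (√(b v v) - √(a v v)) ^ 2 :=
    integral_nonneg fun v => sq_nonneg _
  refine ⟨?_, ∫ v in {v : E n | a v v ≤ 1}, √(a v v) * √(b v v),
    integral_nonneg fun v => by positivity, ?_, ?_, ?_⟩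
  · rw [← ofReal_integral_eq_lintegral_ofReal hia (Filter.Eventually.of_forall fun v => ha0 v),
      hIa]
    congr 1
    ring
  · exact (ofReal_integral_eq_lintegral_ofReal hiab
      (Filter.Eventually.of_forall fun v => by positivity)).symm
  · rw [hE] at hE0
    linarith
  · intro hJ
    rw [hJ, sub_self, mul_zero] at hE
    have h1 := (integral_eq_zero_iff_of_nonneg_ae
      (Filter.Eventually.of_forall fun v : E n => sq_nonneg (√(b v v) - √(a v v))) hiD).1 hE
    have hop : IsOpen {v : E n | a v v < 1} := isOpen_lt hac continuous_const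
    have hsub : {v : E n | a v v < 1} ⊆ {v : E n | a v v ≤ 1} := fun v (hv : a v v < 1) =>
      show a v v ≤ 1 from hv.le
    have h2 := ae_restrict_of_ae_restrict_of_subset hsub h1
    have h3 : EqOn (fun v : E n => (√(b v v) - √(a v v)) ^ 2) 0 {v : E n | a v v < 1} :=
      Measure.eqOn_open_of_ae_eq h2 hop ((hsb.sub hsa).pow 2).continuousOn
        continuousOn_const
    have h4 : ∀ v, b v v = 1 * a v v := by
      intro v
      set s := a v v with hs
      have hs0 : 0 ≤ s := ha0 v
      set t : ℝ := 1 / (1 + s) with ht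
      have ht0 : 0 < t := by positivity
      have h5 : a (t • v) (t • v) = t ^ 2 * s := by
        simp only [map_smul, smul_apply, smul_eq_mul, hs]
        ring
      have h6 : b (t • v) (t • v) = t ^ 2 * b v v := by
        simp only [map_smul, smul_apply, smul_eq_mul]
        ring
      have h7 : t ^ 2 * s < 1 := by
        rw [ht, div_pow, one_pow, one_div, inv_mul_eq_div, div_lt_one (by positivity)]
        nlinarith
      have h8 := h3 (show (t • v) ∈ {v : E n | a v v < 1} by
        rw [mem_setOf_eq, h5]; exact h7)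
      simp only [Pi.zero_apply] at h8
      have h9 : √(b (t • v) (t • v)) = √(a (t • v) (t • v)) := by
        have := pow_eq_zero_iff (two_ne_zero) |>.1 h8
        linarith
      have h10 : b (t • v) (t • v) = a (t • v) (t • v) := by
        rw [← Real.sq_sqrt (hb0 (t • v)), h9, Real.sq_sqrt (ha0 _)]
      rw [h5, h6] at h10
      have h11 : t ^ 2 * (b v v - s) = 0 := by linarith
      rcases mul_eq_zero.1 h11 with h | h
      · exact absurd h (by positivity)
      · linarith
    intro v w
    rw [form_ext ha hb h4 v w, one_mul]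

theorem continuous_tr2 (hg : IsMetric g) (hh : Continuous h) :
    Continuous fun x => ((gram (g x))⁻¹ * gram (h x)).trace := by
  simp only [Matrix.trace, Matrix.diag_apply, Matrix.mul_apply]
  refine continuous_finsetSum _ fun i _ => continuous_finsetSum _ fun j _ => ?_
  refine (smM_inv hg i j).continuous.mul ?_
  simp only [gram_apply]
  exact (hh.clm_apply continuous_const).clm_apply continuous_const

/-- The averaged inequality and the sign of the integral of the trace imply equality. -/
theorem eq_of_energy2 (hn : 1 ≤ n) (hg : IsMetric g) (hh : IsSemi h) (H : A2 g ≤ A1 g h)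
    (hE : ∫ x in ball (0 : E n) 1,
      √(gram (g x)).det * (((gram (g x))⁻¹ * gram (h x)).trace - n) ≤ 0) :
    ∀ x ∈ M n, h x = g x := by
  obtain ⟨C, hC, hT⟩ := p_TRACE n hn
  have hn0 : (0 : ℝ) < n := by exact_mod_cast hn
  choose Q1 J hJ0 hJ1 hJ2 hJ3 using fun x =>
    pointwise2 hn hC hT (hg.symm x) (hg.pos x) (hh.symm x) (hh.nonneg x)
  have hd : ∀ x, 0 < (gram (g x)).det := hg.det_pos
  have hr : ∀ x, 0 < √(gram (g x)).det := fun x => Real.sqrt_pos.2 (hd x)
  have hrr : ∀ x, (gram (g x)).det = √(gram (g x)).det * √(gram (g x)).det := fun x =>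
    (Real.mul_self_sqrt (hd x).le).symm
  have htr0 : ∀ x, 0 ≤ ((gram (g x))⁻¹ * gram (h x)).trace := fun x =>
    Pool.Agent.W4helper65.EN.trace_nonneg (hg.symm x) (hg.pos x) (hh.nonneg x)
  have K1 : ∀ x, (∫⁻ v in {v | g x v v ≤ 1}, ENNReal.ofReal (g x v v) *
      ENNReal.ofReal (rho g x)) = ENNReal.ofReal (C * n * √(gram (g x)).det) := by
    intro x
    rw [lintegral_mul_const' _ _ ENNReal.ofReal_ne_top, Q1 x, rho,
      ← ENNReal.ofReal_mul (by positivity)]
    congr 1
    have := (hr x).ne'
    rw [div_mul_eq_mul_div, div_eq_iff this]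
    nth_rw 1 [hrr x]
    ring
  have K2 : ∀ x, (∫⁻ v in {v | g x v v ≤ 1}, ENNReal.ofReal (√(g x v v) * √(h x v v)) *
      ENNReal.ofReal (rho g x)) = ENNReal.ofReal (J x * (gram (g x)).det) := by
    intro x
    rw [lintegral_mul_const' _ _ ENNReal.ofReal_ne_top, hJ1 x, rho,
      ← ENNReal.ofReal_mul (hJ0 x)]
  unfold A2 A1 at H
  simp only [K1, K2] at H
  -- continuity
  have hc1 : Continuous fun x => C * n * √(gram (g x)).det :=
    continuous_const.mul (continuous_det hg).sqrt
  have hc2 : Continuous fun x => √(gram (g x)).det *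
      (((gram (g x))⁻¹ * gram (h x)).trace - n) :=
    (continuous_det hg).sqrt.mul ((continuous_tr2 hg hh.smooth.continuous).sub continuous_const)
  set f : E n → ℝ≥0∞ := fun x => ENNReal.ofReal (J x * (gram (g x)).det) with hf
  set φ : E n → ℝ := fun x => C * n * √(gram (g x)).det + C / 2 * (√(gram (g x)).det *
      (((gram (g x))⁻¹ * gram (h x)).trace - n)) with hφ
  have hφc : Continuous φ := hc1.add (continuous_const.mul hc2)
  have hφeq : ∀ x, φ x = C / √(gram (g x)).det * ((n + ((gram (g x))⁻¹ * gram (h x)).trace) / 2) *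
      (gram (g x)).det := by
    intro x
    have h1 := (hr x).ne'
    simp only [hφ]
    nth_rw 4 [hrr x]
    field_simp
    ring
  have hφ0 : ∀ x, 0 ≤ φ x := fun x => by
    rw [hφeq]
    have h1 := hr x
    have h2 := hd x
    have h3 := htr0 x
    positivity
  have hint : ∀ ψ : E n → ℝ, Continuous ψ → IntegrableOn ψ (ball (0 : E n) 1) := fun ψ hψ =>
    (hψ.continuousOn.integrableOn_compact (isCompact_closedBall (0 : E n) 1)).mono_set
      ball_subset_closedBall
  have hle : ∀ x, f x ≤ ENNReal.ofReal (φ x) := by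
    intro x
    refine ENNReal.ofReal_le_ofReal ?_
    rw [hφeq]
    exact mul_le_mul_of_nonneg_right (hJ2 x) (hd x).le
  have hI : ∫⁻ x in ball (0 : E n) 1, ENNReal.ofReal (φ x) ≤ ∫⁻ x in ball (0 : E n) 1, f x := by
    refine le_trans ?_ H
    rw [← ofReal_integral_eq_lintegral_ofReal (hint φ hφc) (Eventually.of_forall hφ0),
      ← ofReal_integral_eq_lintegral_ofReal (hint _ hc1) (Eventually.of_forall fun x => by
        have := hr x
        positivity)]
    refine ENNReal.ofReal_le_ofReal ?_
    simp only [hφ]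
    rw [integral_add (hint _ hc1) ((hint _ hc2).const_mul _), integral_const_mul (C / 2)]
    have : C / 2 * ∫ x in ball (0 : E n) 1, √(gram (g x)).det *
      (((gram (g x))⁻¹ * gram (h x)).trace - n) ≤ 0 :=
      mul_nonpos_of_nonneg_of_nonpos (by positivity) hE
    linarith
  have hfin : ∫⁻ x in ball (0 : E n) 1, f x ≠ ⊤ :=
    ((lintegral_mono hle).trans_lt (hint φ hφc).lintegral_lt_top).ne
  have hae := ae_eq_of_ae_le_of_lintegral_le (μ := volume.restrict (ball (0 : E n) 1))
    (Eventually.of_forall hle) hfin hφc.measurable.ennreal_ofReal.aemeasurable hI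
  -- the forms agree
  have hag : h =ᵐ[volume.restrict (ball (0 : E n) 1)] g := by
    filter_upwards [hae] with x hx
    simp only [hf] at hx
    rw [ENNReal.ofReal_eq_ofReal_iff (mul_nonneg (hJ0 x) (hd x).le) (hφ0 x), hφeq] at hx
    have h8 := hJ3 x (mul_right_cancel₀ (hd x).ne' hx)
    ext v w
    exact h8 v w
  have hop := Measure.eqOn_open_of_ae_eq hag isOpen_ball hh.smooth.continuous.continuousOn
    hg.smooth.continuous.continuousOn
  have hcl := hop.closure hh.smooth.continuous hg.smooth.continuous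
  rw [closure_ball _ one_ne_zero] at hcl
  exact hcl

end Pool.Agent.W2helper25.KB
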