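import Pool.Agent.Q176.BR.Det

/-!
# The divergence theorem on the unit ball for fields tangent to the sphere
-/

set_option autoImplicit false

namespace Pool.Agent.W2helper25.KB

open Set Metric MeasureTheory Filter Topology
open scoped ContDiff
open Pool.Agent.Q176.BR

variable {n : ℕ}

theorem int_fderiv_zero {f : E n → ℝ} (hf : ContDiff ℝ 1 f) (hc : HasCompactSupport f) (v : E n) :
    ∫ x, fderiv ℝ f x v = 0 := by
  have hc2 : Continuous (fun x => fderiv ℝ f x v) :=
    (hf.continuous_fderiv (by norm_num)).clm_apply continuous_const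
  have hcs2 : HasCompactSupport (fun x => fderiv ℝ f x v) :=
    (hc.fderiv (𝕜 := ℝ)).comp_left (g := fun L : E n →L[ℝ] ℝ => L v) (by simp)
  have hmain := integral_mul_fderiv_eq_neg_fderiv_mul_of_integrable (μ := (volume : Measure (E n)))
    (f := fun _ : E n => (1 : ℝ)) (g := f) (v := v)
    (by simp) (by simpa using hc2.integrable_of_hasCompactSupport hcs2)
    (by simpa using hf.continuous.integrable_of_hasCompactSupport hc)
    (fun x _ => differentiableAt_const _) (fun x _ => hf.differentiable (by norm_num) x)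
  simpa using hmain

theorem st_deriv_zero {s : ℝ} (h : s < 0 ∨ 1 < s) : deriv Real.smoothTransition s = 0 := by
  rcases h with h | h
  · have h1 : Real.smoothTransition =ᶠ[𝓝 s] fun _ => (0 : ℝ) := by
      filter_upwards [gt_mem_nhds h] with t ht
      exact Real.smoothTransition.zero_of_nonpos (le_of_lt ht)
    rw [h1.deriv_eq]; simp
  · have h1 : Real.smoothTransition =ᶠ[𝓝 s] fun _ => (1 : ℝ) := by
      filter_upwards [lt_mem_nhds h] with t ht
      exact Real.smoothTransition.one_of_one_le (le_of_lt ht)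
    rw [h1.deriv_eq]; simp

theorem st_deriv_bound : ∃ C : ℝ, 0 ≤ C ∧ ∀ s : ℝ, |deriv Real.smoothTransition s| ≤ C := by
  have h1 : Continuous (deriv Real.smoothTransition) :=
    (Real.smoothTransition.contDiff (n := 1)).continuous_deriv (by norm_num)
  obtain ⟨C, hC⟩ := (isCompact_Icc (a := (0 : ℝ)) (b := 1)).exists_bound_of_continuousOn
    h1.continuousOn
  refine ⟨max C 0, le_max_right _ _, fun s => ?_⟩
  by_cases hs : s ∈ Icc (0 : ℝ) 1
  · exact (hC s hs).trans (le_max_left _ _)
  · rw [st_deriv_zero (by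
      rw [mem_Icc, not_and_or, not_le, not_le] at hs; exact hs)]
    simp

theorem lip_bd {q : E n → ℝ} (hq : ContDiff ℝ 1 q) (h0 : q 0 = 0) (hb : ∀ x, ‖x‖ = 1 → q x = 0) :
    ∃ C : ℝ, 0 ≤ C ∧ ∀ x : E n, ‖x‖ ≤ 1 → |q x| ≤ C * (1 - ‖x‖) := by
  obtain ⟨C, hC⟩ := (isCompact_closedBall (0 : E n) 1).exists_bound_of_continuousOn
    (hq.continuous_fderiv (by norm_num)).continuousOn
  refine ⟨max C 0, le_max_right _ _, fun x hx => ?_⟩
  rcases eq_or_ne x 0 with rfl | hx0
  · rw [h0]
    simp
  · have hn : 0 < ‖x‖ := norm_pos_iff.2 hx0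
    have h1 : ‖‖x‖⁻¹ • x‖ = 1 := by
      rw [norm_smul, norm_inv, norm_norm, inv_mul_cancel₀ hn.ne']
    have h2 := (convex_closedBall (0 : E n) 1).norm_image_sub_le_of_norm_fderiv_le (𝕜 := ℝ) (f := q)
      (C := max C 0) (fun y _ => hq.differentiable (by norm_num) y)
      (fun y hy => (hC y hy).trans (le_max_left _ _))
      (x := ‖x‖⁻¹ • x) (y := x) (by rw [mem_closedBall_zero_iff, h1])
      (by rwa [mem_closedBall_zero_iff])
    rw [hb _ h1, sub_zero, Real.norm_eq_abs] at h2
    refine h2.trans (mul_le_mul_of_nonneg_left (le_of_eq ?_) (le_max_right _ _))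
    have h3 : x - ‖x‖⁻¹ • x = (1 - ‖x‖⁻¹) • x := by rw [sub_smul, one_smul]
    rw [h3, norm_smul, Real.norm_eq_abs, abs_of_nonpos (by
      rw [sub_nonpos]; exact (one_le_inv₀ hn).2 hx)]
    field_simp
    ring

/-- The cut-off functions. -/
noncomputable def cut (m : ℕ) (x : E n) : ℝ :=
  Real.smoothTransition ((m + 1) * (1 - ‖x‖ ^ 2) - 1)

theorem contDiff_cut (m : ℕ) : ContDiff ℝ ∞ (cut m : E n → ℝ) := by
  unfold cut
  exact Real.smoothTransition.contDiff.comp (by
    have := contDiff_norm_sq ℝ (E := E n) (n := ∞)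
    fun_prop)

theorem cut_fderiv (m : ℕ) (x v : E n) : fderiv ℝ (cut m : E n → ℝ) x v =
    deriv Real.smoothTransition ((m + 1) * (1 - ‖x‖ ^ 2) - 1) * (-(2 * (m + 1)) * inner ℝ x v) := by
  have h1 : HasFDerivAt (fun y : E n => ‖y‖ ^ 2) (2 • innerSL ℝ x) x := (hasStrictFDerivAt_norm_sq x).hasFDerivAt
  have h2 : HasFDerivAt (fun y : E n => ((m : ℝ) + 1) * (1 - ‖y‖ ^ 2) - 1)
      (((m : ℝ) + 1) • (-((2 : ℕ) • (innerSL ℝ x : E n →L[ℝ] ℝ)))) x := by
    have h3 := ((h1.const_sub (1 : ℝ)).const_mul ((m : ℝ) + 1)).sub_const 1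
    exact h3
  have h4 : HasDerivAt Real.smoothTransition (deriv Real.smoothTransition
      (((m : ℝ) + 1) * (1 - ‖x‖ ^ 2) - 1)) (((m : ℝ) + 1) * (1 - ‖x‖ ^ 2) - 1) :=
    ((Real.smoothTransition.contDiff (n := 1)).differentiable (by norm_num) _).hasDerivAt
  have h5 := h4.comp_hasFDerivAt x h2
  unfold cut
  have h6 : (fun x : E n => Real.smoothTransition (((m : ℝ) + 1) * (1 - ‖x‖ ^ 2) - 1)) =
    Real.smoothTransition ∘ fun y : E n => ((m : ℝ) + 1) * (1 - ‖y‖ ^ 2) - 1 := rfl
  rw [h6, h5.fderiv]
  simp only [smul_apply, smul_eq_mul, neg_apply, innerSL_apply_apply, nsmul_eq_mul, Nat.cast_ofNat]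
  ring

theorem bs_inner (x : E n) (k : Fin n) : inner ℝ x (bs k) = x k := by
  unfold bs
  rw [EuclideanSpace.inner_single_right]
  simp

/-- **The divergence theorem on the unit ball** for fields tangent to the sphere. -/
theorem ball_div (Z : Fin n → E n → ℝ) (hZ : ∀ k, ContDiff ℝ 1 (Z k))
    (hb : ∀ x : E n, ‖x‖ = 1 → ∑ k, x k * Z k x = 0) :
    ∫ x in ball (0 : E n) 1, ∑ k, fderiv ℝ (Z k) x (bs k) = 0 := by
  obtain ⟨Cφ, hCφ, hφ⟩ := st_deriv_bound
  have hq : ContDiff ℝ 1 (fun x : E n => ∑ k, x k * Z k x) := by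
    refine ContDiff.sum fun k _ => ContDiff.mul ?_ (hZ k)
    fun_prop
  obtain ⟨C, hC0, hC⟩ := lip_bd hq (by simp) hb
  set q : E n → ℝ := fun x => ∑ k, x k * Z k x with hqd
  set D : E n → ℝ := fun x => ∑ k, fderiv ℝ (Z k) x (bs k) with hD
  have hDc : Continuous D := continuous_finsetSum _ fun k _ =>
    ((hZ k).continuous_fderiv (by norm_num)).clm_apply continuous_const
  set s : ℕ → E n → ℝ := fun m x => (m + 1) * (1 - ‖x‖ ^ 2) - 1 with hs
  set F : ℕ → E n → ℝ := fun m x => Real.smoothTransition (s m x) * D x -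
    2 * (m + 1) * deriv Real.smoothTransition (s m x) * q x with hF
  have hs1 : ∀ m x, 1 ≤ ‖x‖ → s m x < 0 := by
    intro m x hx
    have h1 : (1 : ℝ) - ‖x‖ ^ 2 ≤ 0 := by nlinarith
    have h2 : ((m : ℝ) + 1) * (1 - ‖x‖ ^ 2) ≤ 0 := mul_nonpos_of_nonneg_of_nonpos (by positivity) h1
    simp only [hs]; linarith
  have hF0 : ∀ m x, 1 ≤ ‖x‖ → F m x = 0 := by
    intro m x hx
    have h1 := hs1 m x hx
    simp only [hF]
    rw [st_deriv_zero (Or.inl h1), Real.smoothTransition.zero_of_nonpos h1.le]
    ring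
  have hcs : ∀ m k, HasCompactSupport (fun x => cut m x * Z k x) := by
    intro m k
    refine HasCompactSupport.intro (isCompact_closedBall (0 : E n) 1) (fun x hx => ?_)
    rw [mem_closedBall_zero_iff, not_le] at hx
    have h1 := hs1 m x hx.le
    simp only [cut]
    rw [Real.smoothTransition.zero_of_nonpos h1.le]; ring
  have hcd : ∀ m k, ContDiff ℝ 1 (fun x => cut m x * Z k x) := fun m k =>
    ((contDiff_cut m).of_le (by exact_mod_cast le_top)).mul (hZ k)
  have hFeq : ∀ m x, F m x = ∑ k, fderiv ℝ (fun x => cut m x * Z k x) x (bs k) := by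
    intro m x
    have h1 : ∀ k, fderiv ℝ (fun x => cut m x * Z k x) x (bs k) =
        Real.smoothTransition (s m x) * fderiv ℝ (Z k) x (bs k) -
          2 * (m + 1) * deriv Real.smoothTransition (s m x) * (x k * Z k x) := by
      intro k
      rw [fderiv_fun_mul ((contDiff_cut m).differentiable (by simp) x)
        ((hZ k).differentiable (by norm_num) x)]
      simp only [add_apply, smul_apply, smul_eq_mul]
      rw [cut_fderiv, bs_inner]
      simp only [cut, hs]
      ring
    simp only [h1, Finset.sum_sub_distrib, ← Finset.mul_sum, hF, hD, hqd]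
  have hint : ∀ m, ∫ x in ball (0 : E n) 1, F m x = 0 := by
    intro m
    rw [setIntegral_eq_integral_of_forall_compl_eq_zero (fun x hx => hF0 m x (by
      rw [mem_ball_zero_iff, not_lt] at hx; exact hx))]
    simp only [hFeq]
    rw [integral_finsetSum]
    · exact Finset.sum_eq_zero fun k _ => int_fderiv_zero (hcd m k) (hcs m k) _
    · intro k _
      exact (((hcd m k).continuous_fderiv (by norm_num)).clm_apply
        continuous_const).integrable_of_hasCompactSupport
        (((hcs m k).fderiv (𝕜 := ℝ)).comp_left (g := fun L : E n →L[ℝ] ℝ => L (bs k)) (by simp))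
  obtain ⟨K, hK⟩ := (isCompact_closedBall (0 : E n) 1).exists_bound_of_continuousOn
    hDc.continuousOn
  have hFc : ∀ m, Continuous (F m) := by
    intro m
    have : F m = fun x => ∑ k, fderiv ℝ (fun x => cut m x * Z k x) x (bs k) := funext (hFeq m)
    rw [this]
    exact continuous_finsetSum _ fun k _ =>
      ((hcd m k).continuous_fderiv (by norm_num)).clm_apply continuous_const
  have : IsFiniteMeasure (volume.restrict (ball (0 : E n) 1)) :=
    ⟨by rw [Measure.restrict_apply_univ]; exact measure_ball_lt_top⟩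
  have hlim := tendsto_integral_of_dominated_convergence (μ := volume.restrict (ball (0 : E n) 1))
    (F := F) (f := D) (fun _ => K + 4 * Cφ * C)
    (fun m => (hFc m).aestronglyMeasurable)
    (integrable_const _)
    (fun m => by
      refine (ae_restrict_iff' measurableSet_ball).2 (Eventually.of_forall fun x hx => ?_)
      rw [mem_ball_zero_iff] at hx
      have h1 := hK x (by rw [mem_closedBall_zero_iff]; exact hx.le)
      have h2 := hC x hx.le
      have h3 : ‖Real.smoothTransition (s m x) * D x‖ ≤ K := by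
        rw [norm_mul, Real.norm_eq_abs (Real.smoothTransition _),
          abs_of_nonneg (Real.smoothTransition.nonneg _)]
        calc Real.smoothTransition (s m x) * ‖D x‖ ≤ 1 * ‖D x‖ :=
              mul_le_mul_of_nonneg_right (Real.smoothTransition.le_one _) (norm_nonneg _)
          _ ≤ K := by rw [one_mul]; exact h1
      have h4 : ‖2 * (m + 1) * deriv Real.smoothTransition (s m x) * q x‖ ≤ 4 * Cφ * C := by
        by_cases h5 : 1 < s m x
        · rw [st_deriv_zero (Or.inr h5)]
          simp only [mul_zero, zero_mul, norm_zero]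
          positivity
        · rw [not_lt] at h5
          have h6 : ((m : ℝ) + 1) * (1 - ‖x‖) ≤ 2 := by
            have h7 : ((m : ℝ) + 1) * (1 - ‖x‖) ≤ ((m : ℝ) + 1) * (1 - ‖x‖ ^ 2) := by
              refine mul_le_mul_of_nonneg_left ?_ (by positivity)
              nlinarith [norm_nonneg x]
            simp only [hs] at h5
            linarith
          rw [norm_mul, norm_mul, Real.norm_eq_abs (deriv _ _), Real.norm_eq_abs (q x),
            Real.norm_eq_abs, abs_of_nonneg (by positivity : (0 : ℝ) ≤ 2 * (m + 1))]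
          calc 2 * ((m : ℝ) + 1) * |deriv Real.smoothTransition (s m x)| * |q x|
              ≤ 2 * ((m : ℝ) + 1) * Cφ * (C * (1 - ‖x‖)) := by
                refine mul_le_mul (mul_le_mul_of_nonneg_left (hφ _) (by positivity)) h2
                  (abs_nonneg _) (by positivity)
            _ = 2 * Cφ * C * (((m : ℝ) + 1) * (1 - ‖x‖)) := by ring
            _ ≤ 2 * Cφ * C * 2 := mul_le_mul_of_nonneg_left h6 (by positivity)
            _ = 4 * Cφ * C := by ring
      exact (norm_sub_le _ _).trans (add_le_add h3 h4))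
    (by
      refine (ae_restrict_iff' measurableSet_ball).2 (Eventually.of_forall fun x hx => ?_)
      rw [mem_ball_zero_iff] at hx
      have h1 : 0 < 1 - ‖x‖ ^ 2 := by nlinarith [norm_nonneg x]
      obtain ⟨N, hN⟩ := exists_nat_gt (2 / (1 - ‖x‖ ^ 2))
      refine tendsto_const_nhds.congr' ?_
      filter_upwards [eventually_ge_atTop N] with m hm
      have h2 : 1 < s m x := by
        have h3 : 2 / (1 - ‖x‖ ^ 2) < (m : ℝ) + 1 := by
          have : (N : ℝ) ≤ m := by exact_mod_cast hm
          linarith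
        rw [div_lt_iff₀ h1] at h3
        simp only [hs]; linarith
      simp only [hF]
      rw [st_deriv_zero (Or.inr h2), Real.smoothTransition.one_of_one_le h2.le]
      ring)
  simp only [hint] at hlim
  exact (tendsto_nhds_unique hlim tendsto_const_nhds)

end Pool.Agent.W2helper25.KB
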