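import Pool.Agent.W2helper25.KB.Mat

/-!
# The integral identity for two almost Kähler metrics with the same almost complex structure
-/

set_option autoImplicit false

namespace Pool.Agent.W2helper25.KB

open Set Metric MeasureTheory Filter Topology
open scoped ContDiff InnerProductSpace
open Pool.Agent.Q176.BR

variable {n : ℕ}

/-- `(g, J)` is an almost Kähler structure on the closed unit ball. -/
structure AK (g : Fld n) (J : E n → E n →L[ℝ] E n) : Prop where
  sq : ∀ x ∈ M n, ∀ v, J x (J x v) = -v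
  herm : ∀ x ∈ M n, ∀ v w, g x (J x v) (J x w) = g x v w
  closed : ∀ x ∈ M n, ∀ u v w, fderiv ℝ (fun y => g y (J y v) w) x u +
    fderiv ℝ (fun y => g y (J y w) u) x v + fderiv ℝ (fun y => g y (J y u) v) x w = 0

variable {g g' : Fld n} {J : E n → E n →L[ℝ] E n}

/-- The matrix of `J`. -/
noncomputable def Jm (J : E n → E n →L[ℝ] E n) (x : E n) : Mt n :=
  Matrix.of fun i k => (J x (bs k)) i

/-- The matrix of the form `g(J·, ·)`. -/
noncomputable def Wm (g : Fld n) (J : E n → E n →L[ℝ] E n) (x : E n) : Mt n :=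
  (Jm J x).transpose * gram (g x)

/-- The inverse of `Wm` on the ball. -/
noncomputable def Vm (g : Fld n) (J : E n → E n →L[ℝ] E n) (x : E n) : Mt n :=
  -((gram (g x))⁻¹ * (Jm J x).transpose)

theorem smM_gram (hg : IsMetric g) : SmM (fun x => gram (g x)) := fun _ _ =>
  (hg.smooth.clm_apply contDiff_const).clm_apply contDiff_const

theorem smM_Jm (hJ : ContDiff ℝ ∞ J) : SmM (Jm J) := by
  intro i k
  simp only [Jm, Matrix.of_apply]
  have h1 : ContDiff ℝ ∞ (fun x => J x (bs k)) := hJ.clm_apply contDiff_const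
  have h2 : ContDiff ℝ ∞ (fun v : E n => v i) := by fun_prop
  exact h2.comp h1

theorem smM_Wm (hg : IsMetric g) (hJ : ContDiff ℝ ∞ J) : SmM (Wm g J) :=
  (smM_Jm hJ).transpose.mul (smM_gram hg)

theorem smM_inv (hg : IsMetric g) : SmM (fun x => (gram (g x))⁻¹) :=
  (smM_gram hg).inv fun x => (hg.det_pos x).ne'

theorem smM_Vm (hg : IsMetric g) (hJ : ContDiff ℝ ∞ J) : SmM (Vm g J) :=
  ((smM_inv hg).mul (smM_Jm hJ).transpose).neg

theorem Wm_apply (x : E n) (i j : Fin n) : Wm g J x i j = g x (J x (bs i)) (bs j) := by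
  conv_rhs => rw [← sum_bs (J x (bs i))]
  simp only [map_sum, map_smul, sum_apply, smul_apply, smul_eq_mul, Wm, Matrix.mul_apply,
    Matrix.transpose_apply, Jm, Matrix.of_apply, gram_apply]

theorem Jm_sq {x : E n} (hk : AK g J) (hx : x ∈ M n) : Jm J x * Jm J x = -1 := by
  ext i k
  have h1 : (Jm J x * Jm J x) i k = (J x (J x (bs k))) i := by
    conv_rhs => rw [← sum_bs (J x (bs k))]
    simp only [map_sum, map_smul, Jm, Matrix.mul_apply, Matrix.of_apply, WithLp.ofLp_sum,
      Finset.sum_apply, WithLp.ofLp_smul, Pi.smul_apply, smul_eq_mul]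
    exact Finset.sum_congr rfl fun l _ => by ring
  rw [h1, hk.sq x hx]
  simp only [WithLp.ofLp_neg, Pi.neg_apply, bs_apply, Matrix.neg_apply, Matrix.one_apply]

theorem isUnit_gram (hg : IsMetric g) (x : E n) : IsUnit (gram (g x)).det :=
  IsUnit.mk0 _ (hg.det_pos x).ne'

theorem WV (hg : IsMetric g) (hk : AK g J) {x : E n} (hx : x ∈ M n) : Wm g J x * Vm g J x = 1 := by
  unfold Wm Vm
  rw [Matrix.mul_neg, Matrix.mul_assoc, ← Matrix.mul_assoc (gram (g x)),
    Matrix.mul_nonsing_inv _ (isUnit_gram hg x), Matrix.one_mul, ← Matrix.transpose_mul,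
    Jm_sq hk hx]
  simp

theorem VW (hg : IsMetric g) (hk : AK g J) {x : E n} (hx : x ∈ M n) : Vm g J x * Wm g J x = 1 :=
  mul_eq_one_comm.1 (WV hg hk hx)

theorem Wm_anti (hg : IsMetric g) (hk : AK g J) {x : E n} (hx : x ∈ M n) (i j : Fin n) :
    Wm g J x i j = -Wm g J x j i := by
  rw [Wm_apply, Wm_apply, ← hk.herm x hx, hk.sq x hx, hg.symm x (J x (bs j))]
  simp

theorem Vm_anti (hg : IsMetric g) (hk : AK g J) {x : E n} (hx : x ∈ M n) (i j : Fin n) :
    Vm g J x i j = -Vm g J x j i := by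
  have h1 : (Wm g J x).transpose = -Wm g J x := by
    ext a b
    rw [Matrix.transpose_apply, Matrix.neg_apply]
    exact Wm_anti hg hk hx b a
  have h2 := congrArg Matrix.transpose (VW hg hk hx)
  rw [Matrix.transpose_mul, h1, Matrix.transpose_one, Matrix.neg_mul] at h2
  have h3 : (Vm g J x).transpose = -Vm g J x := by
    have h4 := congrArg (fun A => Vm g J x * A) h2
    simp only [Matrix.mul_neg, Matrix.mul_one] at h4
    rw [← Matrix.mul_assoc, VW hg hk hx, Matrix.one_mul] at h4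
    exact neg_eq_iff_eq_neg.1 h4
  have h5 := congrFun (congrFun h3 j) i
  rw [Matrix.transpose_apply, Matrix.neg_apply] at h5
  exact h5

theorem dM_Wm (hg : IsMetric g) (hJ : ContDiff ℝ ∞ J) (x v : E n) :
    dM (Wm g J) x v = dM (fun y => (Jm J y).transpose) x v * gram (g x) +
      (Jm J x).transpose * dM (fun y => gram (g y)) x v :=
  dM_mul (smM_Jm hJ).transpose (smM_gram hg) x v

theorem trace_eq (hg : IsMetric g) (hJ : ContDiff ℝ ∞ J) (hk : AK g J) {x : E n}
    (hx : x ∈ ball (0 : E n) 1) (v : E n) :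
    (Vm g J x * dM (Wm g J) x v).trace =
      ((gram (g x))⁻¹ * dM (fun y => gram (g y)) x v).trace := by
  have hxM : x ∈ M n := ball_subset_closedBall hx
  have hJJ : (Jm J x).transpose * (Jm J x).transpose = -1 := by
    rw [← Matrix.transpose_mul, Jm_sq hk hxM]
    simp
  -- the derivative of `J ^ 2 = -1`
  have h1 : dM (Jm J) x v * Jm J x + Jm J x * dM (Jm J) x v = 0 := by
    rw [← dM_mul (smM_Jm hJ) (smM_Jm hJ) x v, ← dM_const (-1 : Mt n) x v]
    refine dM_congr ?_ v
    filter_upwards [isOpen_ball.mem_nhds hx] with y hy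
    exact Jm_sq hk (ball_subset_closedBall hy)
  have h2 : ((Jm J x).transpose * dM (fun y => (Jm J y).transpose) x v).trace = 0 := by
    rw [dM_transpose, ← Matrix.transpose_mul, Matrix.trace_transpose]
    have h3 := congrArg Matrix.trace h1
    rw [Matrix.trace_add, Matrix.trace_mul_comm (Jm J x), Matrix.trace_zero] at h3
    linarith
  rw [dM_Wm hg hJ, Matrix.mul_add, Matrix.trace_add]
  have h4 : (Vm g J x * (dM (fun y => (Jm J y).transpose) x v * gram (g x))).trace = 0 := by
    unfold Vm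
    rw [Matrix.neg_mul, Matrix.trace_neg, ← Matrix.mul_assoc, Matrix.trace_mul_comm,
      Matrix.mul_assoc, ← Matrix.mul_assoc (gram (g x)),
      Matrix.mul_nonsing_inv _ (isUnit_gram hg x), Matrix.one_mul, h2, neg_zero]
  have h5 : Vm g J x * ((Jm J x).transpose * dM (fun y => gram (g y)) x v) =
      (gram (g x))⁻¹ * dM (fun y => gram (g y)) x v := by
    unfold Vm
    rw [Matrix.neg_mul, Matrix.mul_assoc, ← Matrix.mul_assoc (Jm J x).transpose, hJJ]
    simp
  rw [h4, h5, zero_add]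

theorem dM_Vm (hg : IsMetric g) (hJ : ContDiff ℝ ∞ J) (hk : AK g J) {x : E n}
    (hx : x ∈ ball (0 : E n) 1) (v : E n) :
    dM (Vm g J) x v = -(Vm g J x * dM (Wm g J) x v * Vm g J x) := by
  have hxM : x ∈ M n := ball_subset_closedBall hx
  have h1 : dM (Wm g J) x v * Vm g J x + Wm g J x * dM (Vm g J) x v = 0 := by
    rw [← dM_mul (smM_Wm hg hJ) (smM_Vm hg hJ) x v, ← dM_const (1 : Mt n) x v]
    refine dM_congr ?_ v
    filter_upwards [isOpen_ball.mem_nhds hx] with y hy
    exact WV hg hk (ball_subset_closedBall hy)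
  have h2 := congrArg (fun A => Vm g J x * A) h1
  simp only [Matrix.mul_add, Matrix.mul_zero] at h2
  rw [← Matrix.mul_assoc, ← Matrix.mul_assoc, VW hg hk hxM, Matrix.one_mul] at h2
  exact eq_neg_of_add_eq_zero_right h2

/-- The bivector field. -/
noncomputable def Pf (g : Fld n) (J : E n → E n →L[ℝ] E n) (i j : Fin n) (x : E n) : ℝ :=
  √(gram (g x)).det * Vm g J x i j

theorem contDiff_sqrt_det (hg : IsMetric g) : ContDiff ℝ ∞ (fun x => √(gram (g x)).det) :=
  (smM_gram hg).det.sqrt fun x => (hg.det_pos x).ne'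

theorem contDiff_Pf (hg : IsMetric g) (hJ : ContDiff ℝ ∞ J) (i j : Fin n) :
    ContDiff ℝ ∞ (Pf g J i j) := (contDiff_sqrt_det hg).mul (smM_Vm hg hJ i j)

theorem closed_Wm (hk : AK g J) {x : E n} (hx : x ∈ M n) (i k l : Fin n) :
    dM (Wm g J) x (bs i) k l + dM (Wm g J) x (bs k) l i + dM (Wm g J) x (bs l) i k = 0 := by
  simp only [dM, Matrix.of_apply, Wm_apply]
  exact hk.closed x hx (bs i) (bs k) (bs l)

theorem Pf_div (hg : IsMetric g) (hJ : ContDiff ℝ ∞ J) (hk : AK g J) {x : E n}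
    (hx : x ∈ ball (0 : E n) 1) (j : Fin n) : ∑ i, fderiv ℝ (Pf g J i j) x (bs i) = 0 := by
  have hxM : x ∈ M n := ball_subset_closedBall hx
  have hdet := hg.det_pos x
  have h1 : ∀ i, fderiv ℝ (Pf g J i j) x (bs i) = √(gram (g x)).det *
      (1 / 2 * (Vm g J x * dM (Wm g J) x (bs i)).trace * Vm g J x i j -
        (Vm g J x * dM (Wm g J) x (bs i) * Vm g J x) i j) := by
    intro i
    unfold Pf
    rw [fderiv_fun_mul ((contDiff_sqrt_det hg).differentiable (by simp) x)
      ((smM_Vm hg hJ).diff i j x)]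
    simp only [add_apply, smul_apply, smul_eq_mul]
    rw [fderiv_sqrt_det (smM_gram hg) hdet, ← trace_eq hg hJ hk hx]
    have h2 : fderiv ℝ (fun y => Vm g J y i j) x (bs i) = dM (Vm g J) x (bs i) i j := rfl
    rw [h2, dM_Vm hg hJ hk hx, Matrix.neg_apply]
    ring
  simp only [h1, ← Finset.mul_sum]
  rw [alg_cl (Vm g J x) (fun i => dM (Wm g J) x (bs i)) (Vm_anti hg hk hxM) ?_
    (closed_Wm hk hxM) j, mul_zero]
  intro l a b
  have h3 : dM (Wm g J) x (bs l) = -(dM (Wm g J) x (bs l)).transpose := by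
    rw [← dM_transpose, ← dM_neg]
    refine dM_congr ?_ _
    filter_upwards [isOpen_ball.mem_nhds hx] with y hy
    ext c d
    rw [Matrix.neg_apply, Matrix.transpose_apply]
    exact Wm_anti hg hk (ball_subset_closedBall hy) c d
  have h4 := congrFun (congrFun h3 a) b
  rw [Matrix.neg_apply, Matrix.transpose_apply] at h4
  exact h4

/-- The difference of the two 2-forms. -/
noncomputable def Bf (g g' : Fld n) (J : E n → E n →L[ℝ] E n) (i j : Fin n) (x : E n) : ℝ :=
  Wm g' J x i j - Wm g J x i j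

/-- The form `h(J·, ·)` vanishes on the tangent vectors of the sphere. -/
theorem om_bd (hg : IsMetric g) (hg' : IsMetric g') (hk : AK g J) (hk' : AK g' J) {x : E n}
    (hx : x ∈ bdM n) (hb : ∀ v, ⟪x, v⟫_ℝ = 0 → g' x v v = g x v v) {v w : E n}
    (hv : ⟪x, v⟫_ℝ = 0) (hw : ⟪x, w⟫_ℝ = 0) : g' x (J x v) w - g x (J x v) w = 0 := by
  have hxM : x ∈ M n := sphere_subset_closedBall hx
  have hpol : ∀ a b : E n, ⟪x, a⟫_ℝ = 0 → ⟪x, b⟫_ℝ = 0 → g' x a b = g x a b := by
    intro a b ha hb'
    have h1 := hb (a + b) (by rw [inner_add_right, ha, hb', add_zero])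
    simp only [map_add, add_apply] at h1
    rw [hb a ha, hb b hb', hg.symm x b a, hg'.symm x b a] at h1
    linarith
  have hanti : ∀ a b : E n, g x (J x a) b = -g x (J x b) a := by
    intro a b
    rw [← hk.herm x hxM, hk.sq x hxM, hg.symm x (J x b)]
    simp
  have hanti' : ∀ a b : E n, g' x (J x a) b = -g' x (J x b) a := by
    intro a b
    rw [← hk'.herm x hxM, hk'.sq x hxM, hg'.symm x (J x b)]
    simp
  have key : ∀ a b : E n, ⟪x, J x a⟫_ℝ = 0 → ⟪x, b⟫_ℝ = 0 → g' x (J x a) b - g x (J x a) b = 0 := by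
    intro a b h1 h2
    rw [hpol _ _ h1 h2, sub_self]
  by_cases ha : ⟪x, J x w⟫_ℝ = 0
  · have h1 := key w v ha hv
    rw [hanti', hanti]
    linarith
  · set c : ℝ := ⟪x, J x v⟫_ℝ / ⟪x, J x w⟫_ℝ with hc
    have h1 : ⟪x, J x (v - c • w)⟫_ℝ = 0 := by
      rw [map_sub, map_smul, inner_sub_right, inner_smul_right, hc, div_mul_cancel₀ _ ha, sub_self]
    have h2 := key (v - c • w) w h1 hw
    simp only [map_sub, map_smul, sub_apply, smul_apply, smul_eq_mul] at h2
    have h3 : g x (J x w) w = 0 := by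
      have := hanti w w
      linarith
    have h4 : g' x (J x w) w = 0 := by
      have := hanti' w w
      linarith
    rw [h3, h4] at h2
    linarith

theorem Bf_bd (hg : IsMetric g) (hg' : IsMetric g') (hk : AK g J) (hk' : AK g' J) {x : E n}
    (hx : ‖x‖ = 1) (hb : ∀ v, ⟪x, v⟫_ℝ = 0 → g' x v v = g x v v) (i j : Fin n) :
    Bf g g' J i j x = x i * (∑ a, x a * Bf g g' J a j x) - x j * (∑ a, x a * Bf g g' J a i x) := by
  have hxb : x ∈ bdM n := by rwa [mem_sphere_zero_iff_norm]
  have hxM : x ∈ M n := sphere_subset_closedBall hxb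
  -- the form
  set β : E n → E n → ℝ := fun v w => g' x (J x v) w - g x (J x v) w with hβ
  have hB : ∀ a b, Bf g g' J a b x = β (bs a) (bs b) := by
    intro a b
    simp only [Bf, Wm_apply, hβ]
  have hanti : ∀ a b : E n, g x (J x a) b = -g x (J x b) a := by
    intro a b
    rw [← hk.herm x hxM, hk.sq x hxM, hg.symm x (J x b)]
    simp
  have hanti' : ∀ a b : E n, g' x (J x a) b = -g' x (J x b) a := by
    intro a b
    rw [← hk'.herm x hxM, hk'.sq x hxM, hg'.symm x (J x b)]
    simp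
  have hxx : ⟪x, x⟫_ℝ = 1 := by rw [real_inner_self_eq_norm_sq, hx]; norm_num
  have hsum : ∀ b : Fin n, ∑ a, x a * Bf g g' J a b x = β x (bs b) := by
    intro b
    have h1 : β x (bs b) = β (∑ a, x a • bs a) (bs b) := by rw [sum_bs]
    rw [h1]
    simp only [hβ, map_sum, map_smul, sum_apply, smul_apply, smul_eq_mul, hB]
    rw [← Finset.sum_sub_distrib]
    exact Finset.sum_congr rfl fun a _ => by ring
  have ht : ∀ i : Fin n, ⟪x, bs i - x i • x⟫_ℝ = 0 := by
    intro i
    rw [inner_sub_right, inner_smul_right, hxx, bs_inner]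
    ring
  have h0 := om_bd hg hg' hk hk' hxb hb (ht i) (ht j)
  rw [hsum i, hsum j, hB]
  simp only [map_sub, map_smul, sub_apply, smul_apply, smul_eq_mul] at h0
  have h3 : g x (J x x) x = 0 := by
    have := hanti x x
    linarith
  have h4 : g' x (J x x) x = 0 := by
    have := hanti' x x
    linarith
  have h5 := hanti (bs i) x
  have h6 := hanti' (bs i) x
  simp only [hβ]
  rw [h3, h4, h5, h6] at h0
  linarith

theorem ak_int (hn : 3 ≤ n) (hg : IsMetric g) (hg' : IsMetric g') (hJ : ContDiff ℝ ∞ J)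
    (hk : AK g J) (hk' : AK g' J)
    (hb : ∀ x ∈ bdM n, ∀ v, ⟪x, v⟫_ℝ = 0 → g' x v v = g x v v) :
    ∫ x in ball (0 : E n) 1, √(gram (g x)).det * (((gram (g x))⁻¹ * gram (g' x)).trace - n) = 0 := by
  have h1 := pairing hn (Pf g J) (Bf g g' J) (fun i j => (contDiff_Pf hg hJ i j).of_le (by simp))
    (fun i j => ((smM_Wm hg' hJ i j).sub (smM_Wm hg hJ i j)).of_le (by simp))
    (fun x hx i j => by
      simp only [Pf]
      rw [Vm_anti hg hk hx i j]; ring)
    (fun x hx i j => by
      simp only [Bf]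
      rw [Wm_anti hg hk hx i j, Wm_anti hg' hk' hx i j]; ring)
    (fun x hx j => Pf_div hg hJ hk hx j)
    (fun x hx i j k => by
      have hxM : x ∈ M n := ball_subset_closedBall hx
      have e1 : ∀ a b, fderiv ℝ (Bf g g' J a b) x = fderiv ℝ (fun y => Wm g' J y a b) x -
          fderiv ℝ (fun y => Wm g J y a b) x := by
        intro a b
        unfold Bf
        rw [fderiv_fun_sub ((smM_Wm hg' hJ).diff a b x) ((smM_Wm hg hJ).diff a b x)]
      simp only [e1, sub_apply]
      have e2 := closed_Wm hk hxM i j k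
      have e3 := closed_Wm hk' hxM i j k
      simp only [dM, Matrix.of_apply] at e2 e3
      linarith)
    (fun x hx i j => Bf_bd hg hg' hk hk' hx (hb x (by rwa [mem_sphere_zero_iff_norm])) i j)
  rw [← neg_eq_zero, ← integral_neg, ← h1]
  refine setIntegral_congr_fun measurableSet_ball fun x hx => ?_
  have hxM : x ∈ M n := ball_subset_closedBall hx
  have e1 : Vm g J x * (Wm g' J x - Wm g J x) = (gram (g x))⁻¹ * gram (g' x) - 1 := by
    rw [Matrix.mul_sub, VW hg hk hxM]
    congr 1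
    unfold Vm Wm
    rw [Matrix.neg_mul, Matrix.mul_assoc, ← Matrix.mul_assoc (Jm J x).transpose,
      ← Matrix.transpose_mul, Jm_sq hk hxM]
    simp
  have e2 := congrArg Matrix.trace e1
  rw [Matrix.trace_sub, Matrix.trace_one, Fintype.card_fin] at e2
  have e3 : ∑ i, ∑ j, Pf g J i j x * Bf g g' J i j x =
      -(√(gram (g x)).det * (Vm g J x * (Wm g' J x - Wm g J x)).trace) := by
    simp only [Matrix.trace, Matrix.diag_apply, Matrix.mul_apply, Finset.mul_sum]
    rw [← Finset.sum_neg_distrib]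
    refine Finset.sum_congr rfl fun i _ => ?_
    rw [← Finset.sum_neg_distrib]
    refine Finset.sum_congr rfl fun j _ => ?_
    simp only [Pf, Bf, Matrix.sub_apply]
    rw [Wm_anti hg hk hxM i j, Wm_anti hg' hk' hxM i j]
    ring
  rw [e3, e2]

end Pool.Agent.W2helper25.KB
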