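import Pool.Agent.W2helper25.KB.Kae

/-!
# The integral identity for a second form which may be degenerate
-/

set_option autoImplicit false

namespace Pool.Agent.W2helper25.KB

open Set Metric MeasureTheory Filter Topology
open scoped ContDiff InnerProductSpace
open Pool.Agent.Q176.BR

variable {n : ℕ}

/-- `h` is a smooth field of symmetric forms, Hermitian with respect to `J` on `M`, with closed fundamental form. -/
structure HK (h : Fld n) (J : E n → E n →L[ℝ] E n) : Prop where
  smooth : ContDiff ℝ ∞ h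
  symm : ∀ x v w, h x v w = h x w v
  sq : ∀ x ∈ M n, ∀ v, J x (J x v) = -v
  herm : ∀ x ∈ M n, ∀ v w, h x (J x v) (J x w) = h x v w
  closed : ∀ x ∈ ball (0 : E n) 1, ∀ u v w, fderiv ℝ (fun y => h y (J y v) w) x u +
    fderiv ℝ (fun y => h y (J y w) u) x v + fderiv ℝ (fun y => h y (J y u) v) x w = 0

variable {g h : Fld n} {J : E n → E n →L[ℝ] E n}

theorem HK.smM (hh : HK h J) (hJ : ContDiff ℝ ∞ J) : SmM (Wm h J) :=
  (smM_Jm hJ).transpose.mul (fun _ _ =>
    (hh.smooth.clm_apply contDiff_const).clm_apply contDiff_const)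

theorem HK.anti (hh : HK h J) {x : E n} (hx : x ∈ M n) (a b : E n) :
    h x (J x a) b = -h x (J x b) a := by
  rw [← hh.herm x hx, hh.sq x hx, hh.symm x (J x b)]
  simp

theorem HK.Wm_anti (hh : HK h J) {x : E n} (hx : x ∈ M n) (i j : Fin n) :
    Wm h J x i j = -Wm h J x j i := by
  rw [Wm_apply, Wm_apply]
  exact hh.anti hx _ _

theorem HK.closed_Wm (hh : HK h J) {x : E n} (hx : x ∈ ball (0 : E n) 1) (i k l : Fin n) :
    dM (Wm h J) x (bs i) k l + dM (Wm h J) x (bs k) l i + dM (Wm h J) x (bs l) i k = 0 := by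
  simp only [dM, Matrix.of_apply, Wm_apply]
  exact hh.closed x hx (bs i) (bs k) (bs l)

theorem AK.hk (hg : IsMetric g) (hk : AK g J) : HK g J :=
  ⟨hg.smooth, hg.symm, hk.sq, hk.herm, fun x hx => hk.closed x (ball_subset_closedBall hx)⟩

theorem om_bd2 (hk : HK g J) (hk' : HK h J) {x : E n}
    (hx : x ∈ bdM n) (hb : ∀ v, ⟪x, v⟫_ℝ = 0 → h x v v = g x v v) {v w : E n}
    (hv : ⟪x, v⟫_ℝ = 0) (hw : ⟪x, w⟫_ℝ = 0) : h x (J x v) w - g x (J x v) w = 0 := by
  have hxM : x ∈ M n := sphere_subset_closedBall hx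
  have hpol : ∀ a b : E n, ⟪x, a⟫_ℝ = 0 → ⟪x, b⟫_ℝ = 0 → h x a b = g x a b := by
    intro a b ha hb'
    have h1 := hb (a + b) (by rw [inner_add_right, ha, hb', add_zero])
    simp only [map_add, add_apply] at h1
    rw [hb a ha, hb b hb', hk.symm x b a, hk'.symm x b a] at h1
    linarith
  have key : ∀ a b : E n, ⟪x, J x a⟫_ℝ = 0 → ⟪x, b⟫_ℝ = 0 → h x (J x a) b - g x (J x a) b = 0 := by
    intro a b h1 h2
    rw [hpol _ _ h1 h2, sub_self]
  by_cases ha : ⟪x, J x w⟫_ℝ = 0
  · have h1 := key w v ha hv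
    rw [hk'.anti hxM, hk.anti hxM]
    linarith
  · set c : ℝ := ⟪x, J x v⟫_ℝ / ⟪x, J x w⟫_ℝ with hc
    have h1 : ⟪x, J x (v - c • w)⟫_ℝ = 0 := by
      rw [map_sub, map_smul, inner_sub_right, inner_smul_right, hc, div_mul_cancel₀ _ ha, sub_self]
    have h2 := key (v - c • w) w h1 hw
    simp only [map_sub, map_smul, sub_apply, smul_apply, smul_eq_mul] at h2
    have h3 : g x (J x w) w = 0 := by
      have := hk.anti hxM w w
      linarith
    have h4 : h x (J x w) w = 0 := by
      have := hk'.anti hxM w w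
      linarith
    rw [h3, h4] at h2
    linarith

theorem Bf_bd2 (hk : HK g J) (hk' : HK h J) {x : E n}
    (hx : ‖x‖ = 1) (hb : ∀ v, ⟪x, v⟫_ℝ = 0 → h x v v = g x v v) (i j : Fin n) :
    Bf g h J i j x = x i * (∑ a, x a * Bf g h J a j x) - x j * (∑ a, x a * Bf g h J a i x) := by
  have hxb : x ∈ bdM n := by rwa [mem_sphere_zero_iff_norm]
  have hxM : x ∈ M n := sphere_subset_closedBall hxb
  set β : E n → E n → ℝ := fun v w => h x (J x v) w - g x (J x v) w with hβ
  have hB : ∀ a b, Bf g h J a b x = β (bs a) (bs b) := by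
    intro a b
    simp only [Bf, Wm_apply, hβ]
  have hxx : ⟪x, x⟫_ℝ = 1 := by rw [real_inner_self_eq_norm_sq, hx]; norm_num
  have hsum : ∀ b : Fin n, ∑ a, x a * Bf g h J a b x = β x (bs b) := by
    intro b
    have h1 : β x (bs b) = β (∑ a, x a • bs a) (bs b) := by rw [sum_bs]
    rw [h1]
    simp only [hβ, map_sum, map_smul, sum_apply, smul_apply, smul_eq_mul, hB]
    rw [← Finset.sum_sub_distrib]
    exact Finset.sum_congr rfl fun a _ => by ring
  have ht : ∀ i : Fin n, ⟪x, bs i - x i • x⟫_ℝ = 0 := by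
    intro i
    rw [inner_sub_right, inner_smul_right, hxx, bs_inner]
    ring
  have h0 := om_bd2 hk hk' hxb hb (ht i) (ht j)
  rw [hsum i, hsum j, hB]
  simp only [map_sub, map_smul, sub_apply, smul_apply, smul_eq_mul] at h0
  have h3 : g x (J x x) x = 0 := by
    have := hk.anti hxM x x
    linarith
  have h4 : h x (J x x) x = 0 := by
    have := hk'.anti hxM x x
    linarith
  have h5 := hk.anti hxM (bs i) x
  have h6 := hk'.anti hxM (bs i) x
  simp only [hβ]
  rw [h3, h4, h5, h6] at h0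
  linarith

theorem ak_int2 (hn : 3 ≤ n) (hg : IsMetric g) (hJ : ContDiff ℝ ∞ J)
    (hk : AK g J) (hk' : HK h J)
    (hb : ∀ x ∈ bdM n, ∀ v, ⟪x, v⟫_ℝ = 0 → h x v v = g x v v) :
    ∫ x in ball (0 : E n) 1, √(gram (g x)).det * (((gram (g x))⁻¹ * gram (h x)).trace - n) = 0 := by
  have h1 := pairing hn (Pf g J) (Bf g h J) (fun i j => (contDiff_Pf hg hJ i j).of_le (by simp))
    (fun i j => ((hk'.smM hJ i j).sub (smM_Wm hg hJ i j)).of_le (by simp))
    (fun x hx i j => by
      simp only [Pf]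
      rw [Vm_anti hg hk hx i j]; ring)
    (fun x hx i j => by
      simp only [Bf]
      rw [Wm_anti hg hk hx i j, hk'.Wm_anti hx i j]; ring)
    (fun x hx j => Pf_div hg hJ hk hx j)
    (fun x hx i j k => by
      have hxM : x ∈ M n := ball_subset_closedBall hx
      have e1 : ∀ a b, fderiv ℝ (Bf g h J a b) x = fderiv ℝ (fun y => Wm h J y a b) x -
          fderiv ℝ (fun y => Wm g J y a b) x := by
        intro a b
        unfold Bf
        rw [fderiv_fun_sub ((hk'.smM hJ).diff a b x) ((smM_Wm hg hJ).diff a b x)]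
      simp only [e1, sub_apply]
      have e2 := closed_Wm hk hxM i j k
      have e3 := hk'.closed_Wm hx i j k
      simp only [dM, Matrix.of_apply] at e2 e3
      linarith)
    (fun x hx i j => Bf_bd2 (hk.hk hg) hk' hx (hb x (by rwa [mem_sphere_zero_iff_norm])) i j)
  rw [← neg_eq_zero, ← integral_neg, ← h1]
  refine setIntegral_congr_fun measurableSet_ball fun x hx => ?_
  have hxM : x ∈ M n := ball_subset_closedBall hx
  have e1 : Vm g J x * (Wm h J x - Wm g J x) = (gram (g x))⁻¹ * gram (h x) - 1 := by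
    rw [Matrix.mul_sub, VW hg hk hxM]
    congr 1
    unfold Vm Wm
    rw [Matrix.neg_mul, Matrix.mul_assoc, ← Matrix.mul_assoc (Jm J x).transpose,
      ← Matrix.transpose_mul, Jm_sq hk hxM]
    simp
  have e2 := congrArg Matrix.trace e1
  rw [Matrix.trace_sub, Matrix.trace_one, Fintype.card_fin] at e2
  have e3 : ∑ i, ∑ j, Pf g J i j x * Bf g h J i j x =
      -(√(gram (g x)).det * (Vm g J x * (Wm h J x - Wm g J x)).trace) := by
    simp only [Matrix.trace, Matrix.diag_apply, Matrix.mul_apply, Finset.mul_sum]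
    rw [← Finset.sum_neg_distrib]
    refine Finset.sum_congr rfl fun i _ => ?_
    rw [← Finset.sum_neg_distrib]
    refine Finset.sum_congr rfl fun j _ => ?_
    simp only [Pf, Bf, Matrix.sub_apply]
    rw [Wm_anti hg hk hxM i j, hk'.Wm_anti hxM i j]
    ring
  rw [e3, e2]

end Pool.Agent.W2helper25.KB
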