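import Pool.Agent.W2helper20.BC.Avg1
import Pool.Agent.Q176.BR.Bd2

/-!
# The distance function of an arbitrary metric near the diagonal
-/

set_option autoImplicit false

namespace Pool.Agent.W2helper25.KB

open Set Metric MeasureTheory Filter Topology
open scoped ContDiff InnerProductSpace
open Pool.Agent.Q176.BR Pool.Agent.W2helper20.BC

variable {n : ℕ} {g g' : Fld n}

theorem exists_lower (hg : IsMetric g) (p : E n) : ∃ m > 0, ∀ v : E n, m * ‖v‖ ^ 2 ≤ g p v v := by
  have hc : Continuous fun v : E n => g p v v := by fun_prop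
  rcases (sphere (0 : E n) 1).eq_empty_or_nonempty with h | h
  · refine ⟨1, one_pos, fun v => ?_⟩
    have hv : v = 0 := by
      by_contra hv
      have h1 : ‖v‖⁻¹ • v ∈ sphere (0 : E n) 1 := by
        rw [mem_sphere_zero_iff_norm, norm_smul, norm_inv, norm_norm,
          inv_mul_cancel₀ (norm_ne_zero_iff.2 hv)]
      rw [h] at h1
      exact h1
    rw [hv]; simp
  · obtain ⟨v0, hv0, hmin⟩ := (isCompact_sphere (0 : E n) 1).exists_isMinOn h hc.continuousOn
    have hv0n : ‖v0‖ = 1 := mem_sphere_zero_iff_norm.1 hv0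
    have hpos : 0 < g p v0 v0 := hg.pos p v0 (fun h => by rw [h] at hv0n; simp at hv0n)
    refine ⟨g p v0 v0, hpos, fun v => ?_⟩
    rcases eq_or_ne v 0 with rfl | hv
    · simp
    · have hn : 0 < ‖v‖ := norm_pos_iff.2 hv
      have h1 : ‖v‖⁻¹ • v ∈ sphere (0 : E n) 1 := by
        rw [mem_sphere_zero_iff_norm, norm_smul, norm_inv, norm_norm, inv_mul_cancel₀ hn.ne']
      have h2 : g p v0 v0 ≤ g p (‖v‖⁻¹ • v) (‖v‖⁻¹ • v) := hmin h1
      rw [form_smul] at h2
      calc g p v0 v0 * ‖v‖ ^ 2 ≤ (‖v‖⁻¹ ^ 2 * g p v v) * ‖v‖ ^ 2 :=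
            mul_le_mul_of_nonneg_right h2 (sq_nonneg _)
        _ = g p v v := by field_simp

theorem form_near (hg : IsMetric g) (p : E n) {ε : ℝ} (hε : 0 < ε) :
    ∃ r > 0, ∀ x : E n, ‖x - p‖ ≤ r → ∀ v : E n, |g x v v - g p v v| ≤ ε * g p v v := by
  obtain ⟨m, hm, hmv⟩ := exists_lower hg p
  have hs : ContDiff ℝ ∞ (fun x => g x - g p) := hg.smooth.sub contDiff_const
  have hc : Continuous fun x => ‖g x - g p‖ :=
    Continuous.norm (E := E n →L[ℝ] E n →L[ℝ] ℝ) hs.continuous
  have hev : ∀ᶠ x in 𝓝 p, ‖g x - g p‖ < ε * m :=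
    (hc.tendsto' p 0 (by
      have h1 : g p - g p = (0 : E n →L[ℝ] E n →L[ℝ] ℝ) := sub_self (G := E n →L[ℝ] E n →L[ℝ] ℝ) _
      rw [h1]
      exact norm_zero (E := E n →L[ℝ] E n →L[ℝ] ℝ))).eventually_lt_const (by positivity)
  obtain ⟨δ, hδ, h1⟩ := Metric.eventually_nhds_iff.1 hev
  refine ⟨δ / 2, by positivity, fun x hx v => ?_⟩
  have h2 : ‖g x - g p‖ ≤ ε * m := by
    refine (h1 ?_).le
    rw [dist_eq_norm]
    linarith
  have h3 : |g x v v - g p v v| ≤ ‖g x - g p‖ * ‖v‖ * ‖v‖ := by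
    have h4 := (g x - g p).le_opNorm₂ v v
    simpa using h4
  calc |g x v v - g p v v| ≤ ‖g x - g p‖ * ‖v‖ * ‖v‖ := h3
    _ ≤ ε * m * ‖v‖ * ‖v‖ := by gcongr
    _ = ε * (m * ‖v‖ ^ 2) := by ring
    _ ≤ ε * g p v v := mul_le_mul_of_nonneg_left (hmv v) hε.le

theorem sqrt_near (hg : IsMetric g) (p : E n) {ε : ℝ} (hε : 0 < ε) (hε1 : ε < 1) :
    ∃ r > 0, ∀ x : E n, ‖x - p‖ ≤ r → ∀ v : E n,
      (1 - ε) * √(g p v v) ≤ √(g x v v) ∧ √(g x v v) ≤ (1 + ε) * √(g p v v) := by
  obtain ⟨r, hr, h⟩ := form_near hg p hε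
  refine ⟨r, hr, fun x hx v => ?_⟩
  have h1 := abs_le.1 (h x hx v)
  have h2 := hg.nonneg p v
  constructor
  · refine Real.le_sqrt_of_sq_le ?_
    rw [mul_pow, Real.sq_sqrt h2]
    nlinarith
  · refine Real.sqrt_le_iff.2 ⟨by positivity, ?_⟩
    rw [mul_pow, Real.sq_sqrt h2]
    nlinarith

theorem seg_est (hg : IsMetric g) {p : E n} {κ r : ℝ} (hκ : 0 < κ)
    (hr : ∀ x : E n, ‖x - p‖ ≤ r → ∀ v : E n, κ * √(g p v v) ≤ √(g x v v)) {c : ℝ → E n}
    (hc : ContDiffOn ℝ 1 c (Icc 0 1)) (h0 : c 0 = p) {T : ℝ} (hT : T ∈ Icc (0 : ℝ) 1)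
    (hin : ∀ t ∈ Icc (0 : ℝ) T, ‖c t - p‖ ≤ r) :
    κ * √(g p (c T - p) (c T - p)) ≤
      ∫ t in (0 : ℝ)..T, √(g (c t) (derivWithin c (Icc 0 1) t) (derivWithin c (Icc 0 1) t)) := by
  have hud := uniqueDiffOn_Icc (zero_lt_one (α := ℝ))
  have hsub : Icc (0 : ℝ) T ⊆ Icc 0 1 := Icc_subset_Icc le_rfl hT.2
  have hcd : ∀ t ∈ Icc (0 : ℝ) 1, HasDerivWithinAt c (derivWithin c (Icc 0 1) t) (Icc 0 1) t :=
    fun t ht => (hc.differentiableOn (by simp) t ht).hasDerivWithinAt
  have hcc : ContinuousOn (derivWithin c (Icc 0 1)) (Icc 0 1) :=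
    hc.continuousOn_derivWithin hud (by simp)
  have hφ : ContinuousOn (fun t => √(g (c t) (derivWithin c (Icc 0 1) t)
      (derivWithin c (Icc 0 1) t))) (Icc 0 1) := by
    refine ContinuousOn.sqrt ?_
    have c1 : ContinuousOn (fun t => g (c t)) (Icc 0 1) :=
      hg.smooth.continuous.comp_continuousOn hc.continuousOn
    exact (c1.clm_apply hcc).clm_apply hcc
  set W := c T - p with hW
  rcases (hg.nonneg p W).eq_or_lt with hz | hpos
  · rw [← hz, Real.sqrt_zero, mul_zero]
    exact intervalIntegral.integral_nonneg hT.1 (fun t _ => Real.sqrt_nonneg _)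
  set N := √(g p W W) with hN
  have hN0 : 0 < N := Real.sqrt_pos.2 hpos
  have hNN : N * N = g p W W := Real.mul_self_sqrt hpos.le
  have h2 := intervalIntegral.sub_le_integral_of_hasDeriv_right_of_le hT.1
      (g := fun s => g p (c s) W)
      (g' := fun t => g p (derivWithin c (Icc 0 1) t) W)
      (φ := fun t => (κ⁻¹ * N) *
        √(g (c t) (derivWithin c (Icc 0 1) t) (derivWithin c (Icc 0 1) t)))
      (((continuous_const.clm_apply continuous_id).clm_apply continuous_const).comp_continuousOn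
        (hc.continuousOn.mono hsub))
      (fun t ht => by
        have h3 := hcd t (hsub ⟨ht.1.le, ht.2.le⟩)
        have h4 : HasDerivWithinAt (fun s => g p (c s) W) (g p (derivWithin c (Icc 0 1) t) W)
            (Icc 0 1) t := by
          have h5 := ((g p).hasFDerivAt.comp_hasDerivWithinAt t h3).clm_apply
            (hasDerivWithinAt_const t (Icc (0 : ℝ) 1) W)
          simpa using h5
        exact h4.mono_of_mem_nhdsWithin (mem_nhdsWithin_of_mem_nhds
          (Icc_mem_nhds ht.1 (ht.2.trans_le hT.2))))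
      ((continuousOn_const.mul (hφ.mono hsub)).integrableOn_Icc)
      (fun t ht => by
        have h3 := hg.cauchy p (derivWithin c (Icc 0 1) t) W
        have h4 := hr (c t) (hin t ⟨ht.1.le, ht.2.le⟩) (derivWithin c (Icc 0 1) t)
        calc g p (derivWithin c (Icc 0 1) t) W
            ≤ √(g p (derivWithin c (Icc 0 1) t) (derivWithin c (Icc 0 1) t)) * N := h3
          _ = κ⁻¹ * N * (κ * √(g p (derivWithin c (Icc 0 1) t) (derivWithin c (Icc 0 1) t))) := by
              field_simp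
          _ ≤ κ⁻¹ * N *
              √(g (c t) (derivWithin c (Icc 0 1) t) (derivWithin c (Icc 0 1) t)) := by
              refine mul_le_mul_of_nonneg_left h4 (by positivity))
  rw [intervalIntegral.integral_const_mul] at h2
  have h3 : g p (c T) W - g p (c 0) W = N * N := by
    rw [hNN, h0, ← sub_apply, ← map_sub]
  rw [h3] at h2
  set I := ∫ t in (0 : ℝ)..T, √(g (c t) (derivWithin c (Icc 0 1) t) (derivWithin c (Icc 0 1) t))
    with hI
  have h4 : N * (κ * N) ≤ N * I := by
    calc N * (κ * N) = κ * (N * N) := by ring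
      _ ≤ κ * (κ⁻¹ * N * I) := mul_le_mul_of_nonneg_left h2 hκ.le
      _ = N * I := by field_simp
  exact le_of_mul_le_mul_left h4 hN0

/-- Lower bound for the distance function near the diagonal. -/
theorem rdist_lower (hg : IsMetric g) {p : E n} (hp : p ∈ M n) {ε : ℝ} (hε : 0 < ε) (hε1 : ε < 1) :
    ∀ᶠ q in 𝓝 p, q ∈ M n → (1 - ε) * √(g p (q - p) (q - p)) ≤ rdist g p q := by
  obtain ⟨r, hr, hrv⟩ := sqrt_near hg p hε hε1
  obtain ⟨m, hm, hmv⟩ := exists_lower hg p
  have hκ : 0 < 1 - ε := by linarith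
  have hc : Continuous fun q : E n => √(g p (q - p) (q - p)) := by
    have h1 : Continuous fun q : E n => g p (q - p) (q - p) :=
      (continuous_const.clm_apply (continuous_id.sub continuous_const)).clm_apply
        (continuous_id.sub continuous_const)
    exact h1.sqrt
  have hev : ∀ᶠ q in 𝓝 p, √(g p (q - p) (q - p)) < √m * r := by
    refine (hc.tendsto p).eventually_lt_const ?_
    simp only [sub_self, map_zero, Real.sqrt_zero]
    positivity
  filter_upwards [hev] with q hq hqM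
  refine le_csInf ?_ ?_
  · refine ⟨_, fun t => p + t • (q - p), ?_, ?_, by simp, by simp, rfl⟩
    · exact (contDiff_const.add (contDiff_id.smul contDiff_const)).contDiffOn
    · intro t ht
      have h1 : p + t • (q - p) = (1 - t) • p + t • q := by
        rw [smul_sub, sub_smul, one_smul]; abel
      change p + t • (q - p) ∈ M n
      rw [h1]
      exact (convex_closedBall (0 : E n) 1) hp hqM (by linarith [ht.2]) ht.1 (by ring)
  · rintro L ⟨c, hcd, hcM, h0, h1, rfl⟩
    have hφ0 : ∀ t, 0 ≤ √(g (c t) (derivWithin c (Icc 0 1) t) (derivWithin c (Icc 0 1) t)) :=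
      fun t => Real.sqrt_nonneg _
    have hnc : ContinuousOn (fun t => ‖c t - p‖) (Icc 0 1) :=
      (hcd.continuousOn.sub continuousOn_const).norm
    have hud := uniqueDiffOn_Icc (zero_lt_one (α := ℝ))
    have hcc : ContinuousOn (derivWithin c (Icc 0 1)) (Icc 0 1) :=
      hcd.continuousOn_derivWithin hud (by simp)
    have hφ : ContinuousOn (fun t => √(g (c t) (derivWithin c (Icc 0 1) t)
        (derivWithin c (Icc 0 1) t))) (Icc 0 1) := by
      refine ContinuousOn.sqrt ?_
      have c1 : ContinuousOn (fun t => g (c t)) (Icc 0 1) :=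
        hg.smooth.continuous.comp_continuousOn hcd.continuousOn
      exact (c1.clm_apply hcc).clm_apply hcc
    by_cases hall : ∀ t ∈ Icc (0 : ℝ) 1, ‖c t - p‖ ≤ r
    · have h2 := seg_est hg hκ (fun x hx v => (hrv x hx v).1) hcd h0 (T := 1) ⟨zero_le_one, le_rfl⟩
        hall
      rw [h1] at h2
      exact h2
    · push Not at hall
      obtain ⟨t2, ht2, ht2r⟩ := hall
      set S : Set ℝ := {t | t ∈ Icc (0 : ℝ) 1 ∧ ‖c t - p‖ = r} with hS
      have hIVT : ∀ t ∈ Icc (0 : ℝ) 1, r < ‖c t - p‖ → ∃ s ∈ Icc (0 : ℝ) t, ‖c s - p‖ = r := by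
        intro t ht htr
        have h3 := intermediate_value_Icc ht.1 (hnc.mono (Icc_subset_Icc le_rfl ht.2))
        have h4 : r ∈ Icc (‖c 0 - p‖) (‖c t - p‖) := by
          rw [h0, sub_self, norm_zero]
          exact ⟨hr.le, htr.le⟩
        obtain ⟨s, hs, hsr⟩ := h3 h4
        exact ⟨s, hs, hsr⟩
      have hSc : IsCompact S := by
        have h3 : IsClosed S := by
          have h5 : S = Icc (0 : ℝ) 1 ∩ (fun t => ‖c t - p‖) ⁻¹' {r} := by
            ext t; rfl
          rw [h5]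
          exact hnc.preimage_isClosed_of_isClosed isClosed_Icc isClosed_singleton
        exact isCompact_Icc.of_isClosed_subset h3 (fun t ht => ht.1)
      have hSne : S.Nonempty := by
        obtain ⟨s, hs, hsr⟩ := hIVT t2 ht2 ht2r
        exact ⟨s, ⟨hs.1, hs.2.trans ht2.2⟩, hsr⟩
      obtain ⟨t1, ht1, hleast⟩ := hSc.exists_isLeast hSne
      have hin : ∀ t ∈ Icc (0 : ℝ) t1, ‖c t - p‖ ≤ r := by
        intro t ht
        by_contra hcon
        rw [not_le] at hcon
        have ht' : t ∈ Icc (0 : ℝ) 1 := ⟨ht.1, ht.2.trans ht1.1.2⟩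
        obtain ⟨s, hs, hsr⟩ := hIVT t ht' hcon
        have h3 := hleast ⟨⟨hs.1, hs.2.trans ht'.2⟩, hsr⟩
        have h4 : s = t := le_antisymm hs.2 (ht.2.trans h3)
        rw [h4] at hsr
        linarith
      have h2 := seg_est hg hκ (fun x hx v => (hrv x hx v).1) hcd h0 ht1.1 hin
      have h3 : √m * r ≤ √(g p (c t1 - p) (c t1 - p)) := by
        refine Real.le_sqrt_of_sq_le ?_
        rw [mul_pow, Real.sq_sqrt hm.le, ← ht1.2]
        exact hmv _
      have h4 : ∫ t in (0 : ℝ)..t1, √(g (c t) (derivWithin c (Icc 0 1) t)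
          (derivWithin c (Icc 0 1) t)) ≤ len g c := by
        unfold len
        refine intervalIntegral.integral_mono_interval le_rfl ht1.1.1 ht1.1.2
          (Eventually.of_forall hφ0) ?_
        exact (hφ.mono (by rw [uIcc_of_le zero_le_one])).intervalIntegrable
      calc (1 - ε) * √(g p (q - p) (q - p)) ≤ (1 - ε) * (√m * r) :=
            mul_le_mul_of_nonneg_left hq.le hκ.le
        _ ≤ (1 - ε) * √(g p (c t1 - p) (c t1 - p)) := mul_le_mul_of_nonneg_left h3 hκ.le
        _ ≤ _ := h2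
        _ ≤ len g c := h4

/-- Upper bound for the distance function near the diagonal. -/
theorem rdist_upper (hg : IsMetric g) {p : E n} (hp : p ∈ M n) {ε : ℝ} (hε : 0 < ε) (hε1 : ε < 1) :
    ∀ᶠ q in 𝓝 p, q ∈ M n → rdist g p q ≤ (1 + ε) * √(g p (q - p) (q - p)) := by
  obtain ⟨r, hr, hrv⟩ := sqrt_near hg p hε hε1
  filter_upwards [closedBall_mem_nhds p hr] with q hq hqM
  rw [mem_closedBall, dist_eq_norm] at hq
  set c : ℝ → E n := fun t => p + t • (q - p) with hc
  have hcd : ∀ t, HasDerivAt c (q - p) t := by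
    intro t
    have h1 := ((hasDerivAt_id t).smul_const (q - p)).const_add p
    rw [one_smul] at h1
    exact h1
  have hcM : ∀ t ∈ Icc (0 : ℝ) 1, c t ∈ M n := by
    intro t ht
    have h1 : p + t • (q - p) = (1 - t) • p + t • q := by
      rw [smul_sub, sub_smul, one_smul]; abel
    simp only [hc]
    rw [h1]
    exact (convex_closedBall (0 : E n) 1) hp hqM (by linarith [ht.2]) ht.1 (by ring)
  have hcs : ContDiffOn ℝ 1 c (Icc 0 1) :=
    (contDiff_const.add (contDiff_id.smul contDiff_const)).contDiffOn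
  have h1 := rdist_le_len hg hcs hcM
  have h0 : c 0 = p := by simp [hc]
  have h1' : c 1 = q := by simp [hc]
  rw [h0, h1'] at h1
  refine h1.trans ?_
  unfold len
  have hcc : ContinuousOn (fun t => √(g (c t) (q - p) (q - p))) (Icc 0 1) := by
    refine ContinuousOn.sqrt ?_
    exact ((hg.smooth.continuous.comp_continuousOn hcs.continuousOn).clm_apply
      continuousOn_const).clm_apply continuousOn_const
  have h2 : ∫ t in (0 : ℝ)..1, √(g (c t) (derivWithin c (Icc 0 1) t) (derivWithin c (Icc 0 1) t)) =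
      ∫ t in (0 : ℝ)..1, √(g (c t) (q - p) (q - p)) := by
    refine intervalIntegral.integral_congr (fun t ht => ?_)
    rw [uIcc_of_le zero_le_one] at ht
    rw [(hcd t).hasDerivWithinAt.derivWithin (uniqueDiffOn_Icc (zero_lt_one (α := ℝ)) t ht)]
  rw [h2]
  have h3 : ∫ t in (0 : ℝ)..1, √(g (c t) (q - p) (q - p)) ≤
      ∫ _t in (0 : ℝ)..1, (1 + ε) * √(g p (q - p) (q - p)) := by
    refine intervalIntegral.integral_mono_on zero_le_one
      ((hcc.mono (by rw [uIcc_of_le zero_le_one])).intervalIntegrable)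
      intervalIntegrable_const (fun t ht => ?_)
    refine (hrv (c t) ?_ (q - p)).2
    simp only [hc, add_sub_cancel_left, norm_smul, Real.norm_eq_abs, abs_of_nonneg ht.1]
    exact (mul_le_of_le_one_left (norm_nonneg _) ht.2).trans hq
  refine h3.trans ?_
  simp

/-- The distance function at the boundary determines the metric on the tangent vectors of the sphere (one inequality). -/
theorem bd_le (hg : IsMetric g) (hg' : IsMetric g') {p : E n} (hp : p ∈ bdM n)
    (hd : ∀ q ∈ bdM n, rdist g p q ≤ rdist g' p q) {v : E n} (hv : ⟪p, v⟫_ℝ = 0) :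
    g p v v ≤ g' p v v := by
  have hp1 : ‖p‖ = 1 := mem_sphere_zero_iff_norm.1 hp
  have hpM : p ∈ M n := bd_sub hp
  have hne : ∀ᶠ s : ℝ in 𝓝 0, p + s • v ≠ 0 := by
    have h3 : ContinuousAt (fun s : ℝ => p + s • v) 0 := by fun_prop
    refine h3.eventually_ne ?_
    simpa using bd_ne hp1
  have h1 := rad_curve hp1 v
  rw [hv, zero_smul, sub_zero] at h1
  have h0 : rad (p + (0 : ℝ) • v) = p := by rw [zero_smul, add_zero, rad_eq hp1]
  have h2 := hasDerivAt_iff_tendsto_slope_zero.1 h1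
  simp only [zero_add, h0] at h2
  have hcont : Tendsto (fun s : ℝ => rad (p + s • v)) (𝓝[≠] 0) (𝓝 p) := by
    have h3 := h1.continuousAt.tendsto
    rw [h0] at h3
    exact h3.mono_left nhdsWithin_le_nhds
  have lim : ∀ h : Fld n, Tendsto (fun s : ℝ => √(h p (s⁻¹ • (rad (p + s • v) - p))
      (s⁻¹ • (rad (p + s • v) - p)))) (𝓝[≠] 0) (𝓝 (√(h p v v))) := by
    intro h
    have h4 : Continuous fun z : E n => √(h p z z) :=
      (((h p).continuous).clm_apply continuous_id).sqrt
    exact (h4.tendsto v).comp h2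
  have hscale : ∀ (h : Fld n) (s : ℝ), √(h p (s⁻¹ • (rad (p + s • v) - p))
      (s⁻¹ • (rad (p + s • v) - p))) = |s⁻¹| * √(h p (rad (p + s • v) - p) (rad (p + s • v) - p)) := by
    intro h s
    rw [form_smul, Real.sqrt_mul (sq_nonneg _), Real.sqrt_sq_eq_abs]
  have key : ∀ ε : ℝ, 0 < ε → ε < 1 → (1 - ε) * √(g p v v) ≤ (1 + ε) * √(g' p v v) := by
    intro ε hε hε1
    refine le_of_tendsto_of_tendsto ((lim g).const_mul (1 - ε)) ((lim g').const_mul (1 + ε)) ?_
    filter_upwards [nhdsWithin_le_nhds hne, hcont.eventually (rdist_lower hg hpM hε hε1),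
      hcont.eventually (rdist_upper hg' hpM hε hε1)] with s hs hl hu
    have hr : rad (p + s • v) ∈ bdM n := rad_mem hs
    have h5 := (hl (bd_sub hr)).trans ((hd _ hr).trans (hu (bd_sub hr)))
    rw [hscale g, hscale g']
    calc (1 - ε) * (|s⁻¹| * √(g p (rad (p + s • v) - p) (rad (p + s • v) - p)))
        = |s⁻¹| * ((1 - ε) * √(g p (rad (p + s • v) - p) (rad (p + s • v) - p))) := by ring
      _ ≤ |s⁻¹| * ((1 + ε) * √(g' p (rad (p + s • v) - p) (rad (p + s • v) - p))) :=
          mul_le_mul_of_nonneg_left h5 (abs_nonneg _)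
      _ = _ := by ring
  have hlim : √(g p v v) ≤ √(g' p v v) := by
    have e1 : Tendsto (fun ε : ℝ => (1 - ε) * √(g p v v)) (𝓝[>] 0) (𝓝 ((1 - 0) * √(g p v v))) :=
      ((Continuous.tendsto (by fun_prop) 0).mono_left nhdsWithin_le_nhds)
    have e2 : Tendsto (fun ε : ℝ => (1 + ε) * √(g' p v v)) (𝓝[>] 0) (𝓝 ((1 + 0) * √(g' p v v))) :=
      ((Continuous.tendsto (by fun_prop) 0).mono_left nhdsWithin_le_nhds)
    rw [sub_zero, one_mul] at e1
    rw [add_zero, one_mul] at e2
    refine le_of_tendsto_of_tendsto e1 e2 ?_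
    have e3 : ∀ᶠ ε : ℝ in 𝓝[>] 0, ε < 1 := nhdsWithin_le_nhds (gt_mem_nhds zero_lt_one)
    filter_upwards [self_mem_nhdsWithin, e3] with ε h1 h2 using key ε h1 h2
  exact (Real.sqrt_le_sqrt_iff (hg'.nonneg p v)).1 hlim

end Pool.Agent.W2helper25.KB
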