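import Pool.Agent.W2helper25.KB.Pair

/-!
# Matrix valued functions; the cofactor of a closed 2-form is divergence free
-/

set_option autoImplicit false

namespace Pool.Agent.W2helper25.KB

open Set Metric MeasureTheory Filter Topology
open scoped ContDiff
open Pool.Agent.Q176.BR

variable {n : ℕ}

/-- Square matrices. -/
abbrev Mt (n : ℕ) := Matrix (Fin n) (Fin n) ℝ

/-- All entries are smooth. -/
def SmM (m : E n → Mt n) : Prop := ∀ i j, ContDiff ℝ ∞ (fun y => m y i j)

theorem SmM.diff {m : E n → Mt n} (h : SmM m) (i j : Fin n) (x : E n) :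
    DifferentiableAt ℝ (fun y => m y i j) x := (h i j).differentiable (by simp) x

theorem SmM.mul {m1 m2 : E n → Mt n} (h1 : SmM m1) (h2 : SmM m2) : SmM (fun y => m1 y * m2 y) := by
  intro i j
  simp only [Matrix.mul_apply]
  exact ContDiff.sum fun k _ => (h1 i k).mul (h2 k j)

theorem SmM.neg {m : E n → Mt n} (h : SmM m) : SmM (fun y => -m y) := fun i j => (h i j).neg

theorem SmM.transpose {m : E n → Mt n} (h : SmM m) : SmM (fun y => (m y).transpose) :=
  fun i j => h j i

theorem SmM.det {m : E n → Mt n} (h : SmM m) : ContDiff ℝ ∞ (fun y => (m y).det) := by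
  simp only [Matrix.det_apply]
  refine ContDiff.sum fun σ _ => ContDiff.const_smul _ (contDiff_prod fun i _ => h _ _)

theorem SmM.adjugate {m : E n → Mt n} (h : SmM m) : SmM (fun y => (m y).adjugate) := by
  intro i j
  simp only [Matrix.adjugate_apply]
  have h1 : SmM (fun y => (m y).updateRow j (Pi.single i 1)) := by
    intro a b
    by_cases ha : a = j
    · subst ha
      simp only [Matrix.updateRow_self]
      exact contDiff_const
    · simp only [Matrix.updateRow_ne ha]
      exact h a b
  exact h1.det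

theorem SmM.inv {m : E n → Mt n} (h : SmM m) (hd : ∀ y, (m y).det ≠ 0) : SmM (fun y => (m y)⁻¹) := by
  intro i j
  have h1 : (fun y => (m y)⁻¹ i j) = fun y => ((m y).det)⁻¹ * (m y).adjugate i j := by
    funext y
    rw [Matrix.inv_def, Ring.inverse_eq_inv', Matrix.smul_apply, smul_eq_mul]
  rw [h1]
  exact (h.det.inv hd).mul (h.adjugate i j)

/-- The derivative in the direction `v`. -/
noncomputable def dM (m : E n → Mt n) (x v : E n) : Mt n :=
  Matrix.of fun i j => fderiv ℝ (fun y => m y i j) x v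

theorem dM_mul {m1 m2 : E n → Mt n} (h1 : SmM m1) (h2 : SmM m2) (x v : E n) :
    dM (fun y => m1 y * m2 y) x v = dM m1 x v * m2 x + m1 x * dM m2 x v := by
  ext i j
  simp only [dM, Matrix.of_apply, Matrix.add_apply, Matrix.mul_apply]
  rw [fderiv_fun_sum (fun k _ => (h1.diff i k x).fun_mul (h2.diff k j x))]
  simp only [sum_apply]
  rw [← Finset.sum_add_distrib]
  refine Finset.sum_congr rfl fun k _ => ?_
  rw [fderiv_fun_mul (h1.diff i k x) (h2.diff k j x)]
  simp only [add_apply, smul_apply, smul_eq_mul]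
  ring

theorem dM_congr {m1 m2 : E n → Mt n} {x : E n} (h : m1 =ᶠ[𝓝 x] m2) (v : E n) :
    dM m1 x v = dM m2 x v := by
  ext i j
  simp only [dM, Matrix.of_apply]
  have h1 : (fun y => m1 y i j) =ᶠ[𝓝 x] fun y => m2 y i j := h.mono fun y hy => by simp only [hy]
  rw [h1.fderiv_eq]

theorem dM_const (A : Mt n) (x v : E n) : dM (fun _ => A) x v = 0 := by
  ext i j
  simp [dM]

theorem dM_transpose (m : E n → Mt n) (x v : E n) :
    dM (fun y => (m y).transpose) x v = (dM m x v).transpose := rfl

theorem dM_neg (m : E n → Mt n) (x v : E n) : dM (fun y => -m y) x v = -dM m x v := by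
  ext i j
  simp only [dM, Matrix.of_apply, Matrix.neg_apply]
  rw [fderiv_fun_neg]
  rfl

theorem fderiv_det {m : E n → Mt n} (h : SmM m) {x : E n} (hx : (m x).det ≠ 0) (v : E n) :
    fderiv ℝ (fun y => (m y).det) x v = (m x).det * ((m x)⁻¹ * dM m x v).trace := by
  have hl : HasDerivAt (fun s : ℝ => x + s • v) v 0 := by
    simpa using ((hasDerivAt_id (0 : ℝ)).smul_const v).const_add x
  have hx0 : x + (0 : ℝ) • v = x := by rw [zero_smul, add_zero]
  have hline : ∀ (f : E n → ℝ), DifferentiableAt ℝ f x →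
      HasDerivAt (fun s : ℝ => f (x + s • v)) (fderiv ℝ f x v) 0 := by
    intro f hf
    have h4 : HasFDerivAt f (fderiv ℝ f x) (x + (0 : ℝ) • v) := by
      rw [hx0]
      exact hf.hasFDerivAt
    exact h4.comp_hasDerivAt (0 : ℝ) hl
  have h1 := det_curve (m := fun s : ℝ => m (x + s • v)) (A := dM m x v) (t := 0)
    (by rw [hx0]; exact IsUnit.mk0 _ hx) (fun i j => hline _ (h.diff i j x))
  rw [hx0] at h1
  exact (hline _ (h.det.differentiable (by simp) x)).unique h1

theorem fderiv_sqrt_det {m : E n → Mt n} (h : SmM m) {x : E n} (hx : 0 < (m x).det) (v : E n) :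
    fderiv ℝ (fun y => √(m y).det) x v = √(m x).det * (1 / 2 * ((m x)⁻¹ * dM m x v).trace) := by
  have h1 : HasFDerivAt (fun y => (m y).det) (fderiv ℝ (fun y => (m y).det) x) x :=
    (h.det.differentiable (by simp) x).hasFDerivAt
  rw [(h1.sqrt hx.ne').fderiv]
  simp only [smul_apply, smul_eq_mul]
  rw [fderiv_det h hx.ne']
  have h2 : √(m x).det ≠ 0 := (Real.sqrt_pos.2 hx).ne'
  field_simp
  rw [Real.sq_sqrt hx.le]

theorem alg_cl (V : Mt n) (c : Fin n → Mt n) (hV : ∀ i j, V i j = -V j i)
    (hc : ∀ l i k, c l i k = -c l k i) (hcl : ∀ i k l, c i k l + c k l i + c l i k = 0) (j : Fin n) :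
    ∑ i, (1 / 2 * (V * c i).trace * V i j - (V * c i * V) i j) = 0 := by
  set A : Fin n → ℝ := fun l => ∑ i, ∑ k, V i k * c i k l with hA
  have h1 : ∀ l, A l = 1 / 2 * (V * c l).trace := by
    intro l
    have e1 : (V * c l).trace = ∑ i, ∑ k, V i k * c l k i := by
      simp only [Matrix.trace, Matrix.diag_apply, Matrix.mul_apply]
    have e2 : A l = ∑ i, ∑ k, V k i * c k i l := by
      simp only [hA]
      rw [Finset.sum_comm]
    have e3 : A l + A l = ∑ i, ∑ k, V i k * c l k i := by
      nth_rewrite 1 [hA]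
      rw [e2, ← Finset.sum_add_distrib]
      refine Finset.sum_congr rfl fun i _ => ?_
      rw [← Finset.sum_add_distrib]
      refine Finset.sum_congr rfl fun k _ => ?_
      have e4 := hcl i k l
      rw [hV k i, hc l k i, hc k i l]
      linear_combination V i k * e4
    rw [e1, ← e3]; ring
  have h2 : ∑ i, (V * c i * V) i j = ∑ l, A l * V l j := by
    simp only [Matrix.mul_apply]
    have e1 : ∀ l, A l * V l j = ∑ i, (∑ k, V i k * c i k l) * V l j := by
      intro l
      simp only [hA]
      rw [Finset.sum_mul]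
    simp only [e1]
    rw [Finset.sum_comm]
  rw [Finset.sum_sub_distrib, h2, sub_eq_zero]
  refine Finset.sum_congr rfl fun l _ => ?_
  rw [h1 l]

end Pool.Agent.W2helper25.KB
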