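import Pool.Agent.W2helper25.KB.Semi
import Pool.Agent.W2helper25.KB.Len

/-!
# Boundary fixing pseudoholomorphic maps
-/

set_option autoImplicit false

namespace Pool.Agent.W2helper25.KB

open Set Metric MeasureTheory Filter Topology
open scoped ContDiff InnerProductSpace ENNReal
open Pool.Agent.Q176.BR Pool.Agent.W2helper20.BC

variable {n : ℕ} {g g' : Fld n} {J J' : E n → E n →L[ℝ] E n} {ψ : E n → E n}

theorem fderiv_of_line {F : Type} [NormedAddCommGroup F] [NormedSpace ℝ F] {f : E n → F} {x u : E n}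
    {d : F} (hf : DifferentiableAt ℝ f x)
    (h : HasDerivAt (fun t : ℝ => f (x + t • u)) d 0) : fderiv ℝ f x u = d := by
  have h3 : HasDerivAt (fun t : ℝ => x + t • u) u 0 := by
    simpa using ((hasDerivAt_id (0 : ℝ)).smul_const u).const_add x
  have h4 : HasFDerivAt f (fderiv ℝ f x) (x + (0 : ℝ) • u) := by
    rw [zero_smul, add_zero]
    exact hf.hasFDerivAt
  exact (h4.comp_hasDerivAt (0 : ℝ) h3).unique h

theorem line_of_fderiv {F : Type} [NormedAddCommGroup F] [NormedSpace ℝ F] {f : E n → F} {x : E n}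
    (u : E n) (hf : DifferentiableAt ℝ f x) :
    HasDerivAt (fun t : ℝ => f (x + t • u)) (fderiv ℝ f x u) 0 := by
  have h3 : HasDerivAt (fun t : ℝ => x + t • u) u 0 := by
    simpa using ((hasDerivAt_id (0 : ℝ)).smul_const u).const_add x
  have h4 : HasFDerivAt f (fderiv ℝ f x) (x + (0 : ℝ) • u) := by
    rw [zero_smul, add_zero]
    exact hf.hasFDerivAt
  exact h4.comp_hasDerivAt (0 : ℝ) h3

/-- The pull-back of a closed 2-form is closed. -/
theorem closed_pull {Ω : Fld n} (hΩ : ContDiff ℝ ∞ Ω) (hψ : ContDiff ℝ ∞ ψ) {x : E n}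
    (ha : ∀ v w, Ω (ψ x) v w = -Ω (ψ x) w v)
    (hc : ∀ u v w, fderiv ℝ Ω (ψ x) u v w + fderiv ℝ Ω (ψ x) v w u + fderiv ℝ Ω (ψ x) w u v = 0)
    (u v w : E n) :
    fderiv ℝ (fun y => Ω (ψ y) (fderiv ℝ ψ y v) (fderiv ℝ ψ y w)) x u +
      fderiv ℝ (fun y => Ω (ψ y) (fderiv ℝ ψ y w) (fderiv ℝ ψ y u)) x v +
      fderiv ℝ (fun y => Ω (ψ y) (fderiv ℝ ψ y u) (fderiv ℝ ψ y v)) x w = 0 := by
  have hD : ContDiff ℝ ∞ (fderiv ℝ ψ) := hψ.fderiv_right (m := ∞) (by simp)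
  have hsym : ∀ a b : E n, fderiv ℝ (fderiv ℝ ψ) x a b = fderiv ℝ (fderiv ℝ ψ) x b a := by
    have h1 : IsSymmSndFDerivAt ℝ ψ x := hψ.contDiffAt.isSymmSndFDerivAt (by
      simp only [minSmoothness_of_isRCLikeNormedField]
      exact WithTop.coe_le_coe.2 le_top)
    exact fun a b => h1 a b
  have key : ∀ a b c : E n, fderiv ℝ (fun y => Ω (ψ y) (fderiv ℝ ψ y b) (fderiv ℝ ψ y c)) x a =
      fderiv ℝ Ω (ψ x) (fderiv ℝ ψ x a) (fderiv ℝ ψ x b) (fderiv ℝ ψ x c) +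
        Ω (ψ x) (fderiv ℝ (fderiv ℝ ψ) x a b) (fderiv ℝ ψ x c) +
          Ω (ψ x) (fderiv ℝ ψ x b) (fderiv ℝ (fderiv ℝ ψ) x a c) := by
    intro a b c
    have hx0 : x + (0 : ℝ) • a = x := by rw [zero_smul, add_zero]
    have h2 : HasDerivAt (fun t : ℝ => Ω (ψ (x + t • a))) (fderiv ℝ Ω (ψ x) (fderiv ℝ ψ x a)) 0 := by
      have h3 := line_of_fderiv (f := Ω ∘ ψ) (x := x) a ((hΩ.comp hψ).differentiable (by simp) x)
      rw [fderiv_comp x (hΩ.differentiable (by simp) _) (hψ.differentiable (by simp) x)] at h3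
      exact h3
    have h4 : HasDerivAt (fun t : ℝ => fderiv ℝ ψ (x + t • a)) (fderiv ℝ (fderiv ℝ ψ) x a) 0 :=
      line_of_fderiv a (hD.differentiable (by simp) x)
    have h5 : ∀ e : E n, HasDerivAt (fun t : ℝ => fderiv ℝ ψ (x + t • a) e)
        (fderiv ℝ (fderiv ℝ ψ) x a e) 0 := by
      intro e
      have h6 := h4.clm_apply (hasDerivAt_const (0 : ℝ) e)
      simpa using h6
    have h7 := (h2.clm_apply (h5 b)).clm_apply (h5 c)
    simp only [hx0] at h7
    refine fderiv_of_line ?_ (h7.congr_deriv (by simp only [add_apply]))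
    have h8 : ContDiff ℝ ∞ (fun y => Ω (ψ y) (fderiv ℝ ψ y b) (fderiv ℝ ψ y c)) :=
      ((hΩ.comp hψ).clm_apply (hD.clm_apply contDiff_const)).clm_apply (hD.clm_apply contDiff_const)
    exact h8.differentiable (by simp) x
  rw [key u v w, key v w u, key w u v]
  have e1 := hc (fderiv ℝ ψ x u) (fderiv ℝ ψ x v) (fderiv ℝ ψ x w)
  rw [hsym v w, hsym v u, hsym w u] at *
  have e2 := ha (fderiv ℝ ψ x w) (fderiv ℝ (fderiv ℝ ψ) x u v)
  have e3 := ha (fderiv ℝ ψ x v) (fderiv ℝ (fderiv ℝ ψ) x u w)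
  have e4 := ha (fderiv ℝ ψ x u) (fderiv ℝ (fderiv ℝ ψ) x w v)
  linarith

theorem om_smooth (hg' : IsMetric g') (hJ' : ContDiff ℝ ∞ J') :
    ContDiff ℝ ∞ (fun x => (g' x).comp (J' x)) := hg'.smooth.clm_comp hJ'

theorem om_fderiv (hg' : IsMetric g') (hJ' : ContDiff ℝ ∞ J') (x u v w : E n) :
    fderiv ℝ (fun y => (g' y).comp (J' y)) x u v w = fderiv ℝ (fun y => g' y (J' y v) w) x u := by
  have h0 := om_smooth hg' hJ'
  have h1 := line_of_fderiv u (h0.differentiable (by simp) x)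
  have h2 := (h1.clm_apply (hasDerivAt_const (0 : ℝ) v)).clm_apply (hasDerivAt_const (0 : ℝ) w)
  simp only [map_zero, add_zero, ContinuousLinearMap.comp_apply] at h2
  have h3 : ContDiff ℝ ∞ (fun y => g' y (J' y v) w) :=
    (hg'.smooth.clm_apply (hJ'.clm_apply contDiff_const)).clm_apply contDiff_const
  exact (fderiv_of_line (h3.differentiable (by simp) x) h2).symm

theorem hk_pull (hk : AK g J) (hg' : IsMetric g') (hJ' : ContDiff ℝ ∞ J')
    (hk' : AK g' J') (hψ : IsFix ψ)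
    (hol : ∀ x ∈ M n, ∀ v, fderiv ℝ ψ x (J x v) = J' (ψ x) (fderiv ℝ ψ x v)) :
    HK (pull g' ψ) J := by
  have hs := Pool.Agent.W4helper65.EN.semi_pull hg' hψ
  refine ⟨hs.smooth, hs.symm, hk.sq, ?_, ?_⟩
  · intro x hx v w
    rw [Pool.Agent.W4helper65.EN.pull_apply, Pool.Agent.W4helper65.EN.pull_apply, hol x hx, hol x hx,
      hk'.herm _ (hψ.maps hx)]
  · intro x hx u v w
    have hxM : x ∈ M n := ball_subset_closedBall hx
    have hψx : ψ x ∈ M n := hψ.maps hxM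
    have hcl := closed_pull (Ω := fun y => (g' y).comp (J' y)) (om_smooth hg' hJ') hψ.smooth (x := x)
      (fun v w => by
        simp only [ContinuousLinearMap.comp_apply]
        rw [← hk'.herm _ hψx, hk'.sq _ hψx, hg'.symm (ψ x) (J' (ψ x) w)]
        simp)
      (fun u v w => by
        simp only [om_fderiv hg' hJ']
        exact hk'.closed _ hψx u v w) u v w
    have hev : ∀ a b : E n, (fun y => pull g' ψ y (J y a) b) =ᶠ[𝓝 x]
        fun y => ((g' (ψ y)).comp (J' (ψ y))) (fderiv ℝ ψ y a) (fderiv ℝ ψ y b) := by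
      intro a b
      filter_upwards [isOpen_ball.mem_nhds hx] with y hy
      rw [Pool.Agent.W4helper65.EN.pull_apply, hol y (ball_subset_closedBall hy),
        ContinuousLinearMap.comp_apply]
    rw [(hev v w).fderiv_eq, (hev w u).fderiv_eq, (hev u v).fderiv_eq]
    exact hcl

theorem fix_tangent (hψ : IsFix ψ) {x v : E n} (hx : x ∈ bdM n) (hv : ⟪x, v⟫_ℝ = 0) :
    fderiv ℝ ψ x v = v := by
  have hx1 : ‖x‖ = 1 := mem_sphere_zero_iff_norm.1 hx
  have h1 := rad_curve hx1 v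
  rw [hv, zero_smul, sub_zero] at h1
  have h2 : HasFDerivAt ψ (fderiv ℝ ψ x) (rad (x + (0 : ℝ) • v)) := by
    rw [zero_smul, add_zero, rad_eq hx1]
    exact (hψ.smooth.differentiable (by simp) x).hasFDerivAt
  have h3 := h2.comp_hasDerivAt (0 : ℝ) h1
  have hne : ∀ᶠ s : ℝ in 𝓝 0, x + s • v ≠ 0 := by
    have h3 : ContinuousAt (fun s : ℝ => x + s • v) 0 := by fun_prop
    refine h3.eventually_ne ?_
    simpa using bd_ne hx1
  have h4 : HasDerivAt (ψ ∘ fun s : ℝ => rad (x + s • v)) v 0 := by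
    refine h1.congr_of_eventuallyEq ?_
    filter_upwards [hne] with s hs
    exact hψ.fix _ (rad_mem hs)
  exact h3.unique h4

/-- **Main theorem** for boundary fixing pseudoholomorphic maps. -/
theorem main_psi (hn : 3 ≤ n) (hg : IsSimple g) (hg' : IsMetric g') (hJ : ContDiff ℝ ∞ J)
    (hJ' : ContDiff ℝ ∞ J') (hk : AK g J) (hk' : AK g' J') (hψ : IsFix ψ)
    (hol : ∀ x ∈ M n, ∀ v, fderiv ℝ ψ x (J x v) = J' (ψ x) (fderiv ℝ ψ x v))
    (hd : ∀ p ∈ bdM n, ∀ q ∈ bdM n, rdist g p q = rdist g' p q) :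
    (∀ x ∈ M n, ∀ v w, g' (ψ x) (fderiv ℝ ψ x v) (fderiv ℝ ψ x w) = g x v w) ∧
      Pool.Agent.Q176.SM.IsDiffeo ψ (M n) (M n) := by
  have hd' : ∀ p ∈ bdM n, ∀ q ∈ bdM n, rdist g p q ≤ rdist g' p q := fun p hp q hq => (hd p hp q hq).le
  have hs := Pool.Agent.W4helper65.EN.semi_pull hg' hψ
  have hl := Pool.Agent.W4helper65.EN.lenGe_pull hg' hψ hd'
  have hA := (p_AVG2 (Pool.Agent.W2helper98.BC.p_inv p_sym) Pool.Agent.W2helper6.BC.p_meas p_chord1
    p_chord2 n g (pull g' ψ) (by omega) hg hs hl).1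
  have hint := ak_int2 hn hg.toIsMetric hJ hk (hk_pull hk hg' hJ' hk' hψ hol)
    (fun x hx v hv => by
      rw [Pool.Agent.W4helper65.EN.pull_apply, fix_tangent hψ hx hv, hψ.fix x hx]
      exact le_antisymm (bd_le hg' hg.toIsMetric hx (fun q hq => (hd x hx q hq).ge) hv)
        (bd_le hg.toIsMetric hg' hx (fun q hq => (hd x hx q hq).le) hv))
  have h1 := eq_of_energy2 (by omega) hg.toIsMetric hs hA hint.le
  have h2 : ∀ x ∈ M n, ∀ v w, g' (ψ x) (fderiv ℝ ψ x v) (fderiv ℝ ψ x w) = g x v w := by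
    intro x hx v w
    rw [← Pool.Agent.W4helper65.EN.pull_apply, h1 x hx]
  exact ⟨h2, Pool.Agent.W2helper71.EN.p_DIFF p_chord1 p_chord2 n g g' ψ (by omega) hg hg'
    hψ hd' h2⟩

end Pool.Agent.W2helper25.KB
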